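import Pool.Agent.H63.BU.UOrd

/-!
# [H63 BU UGSR] homomorphisms to a nilpotent group with given restriction to all inertia groups, 110-170 lines. File Pool/Agent/H63/BU/UGsr.lean

`ugsr`: `z ∈ K` a primitive `n`-th root of unity, all primes `v` with `n ∈ v` in `S0`. For every finite nilpotent group `H` of order dividing `n` there is `C` such that every finite set `Rs` of homomorphisms `φ : Γ → H` of finite type which agree on all `inr L v`, `v ∉ S0`, has at most `C` elements.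
Proof. Strong induction on the order of `H`. If `H` is trivial: `C = 1`. Otherwise the centre is nontrivial (`Group.IsNilpotent`: `Subgroup.nontrivial_center_of_isNilpotent`/`Group.isNilpotent...`, or via `Group.nilpotencyClass`; search Mathlib/GroupTheory/Nilpotent.lean) so it contains an element `c` of prime order `l` (`exists_prime_orderOf_dvd_card`), `l ∣ n`.
Let `Z = Subgroup.zpowers c`, central, normal, of order `l`. `H ⧸ Z` is nilpotent, of smaller order dividing `n`; let `C₁` be its constant. `ξ = z ^ (n / l)` is a primitive `l`-th root of unity (`IsPrimitiveRoot.pow`), and a prime `v` with `l ∈ v` has `n ∈ v`, so it is in `S0`; let `C₂` be the constant of `uord_fin`. Put `C = C₁ C₂`.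
`φ ↦ (mk' Z) ∘ φ` maps `Rs` to a finite set (image) satisfying the hypothesis for `H ⧸ Z` (`H38.ML.ft_comp`), so it has at most `C₁` elements. Each fibre has at most `C₂` elements: fix `φ₀` in the fibre; for `φ` in the fibre `χ σ = φ₀ σ⁻¹ * φ σ ∈ Z` is a homomorphism to `Z` (central: as `gupa_chi`, `gupa_chi_ft` in
Pool/Agent/H63/MA/GUpA.lean) of finite type, trivial on all `inr L v`, `v ∉ S0`; compose it with an isomorphism (or an injective homomorphism) `Z → Multiplicative (ZMod l)` (`zmodCyclicMulEquiv`/`zmultiplesEquiv`, or `mulEquivOfPrimeCardEq`); `φ ↦ χ_φ` is injective on the fibre. (`Finset.card_le_mul_card_image` counts with fibres.)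
-/

set_option autoImplicit false

open scoped NumberField
open IsDedekindDomain
open scoped Classical

noncomputable section

namespace H63.BU

open H63.MA H38.BB H38.BG

variable {K : Type} [Field K] [NumberField K] {Ω : Type} [Field Ω] [Algebra K Ω] [IsAlgClosure K Ω]
  {p : ℕ} {ζ : K}

theorem ugsr_center (H : Type) [Group H] (hnil : Group.IsNilpotent H) [Nontrivial H] :
    Nontrivial (Subgroup.center H) := by
  rw [Subgroup.nontrivial_iff_ne_bot]
  intro hbot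
  obtain ⟨n, hn⟩ := hnil.nilpotent'
  have h : ∀ n, Subgroup.upperCentralSeries H n = ⊥ := by
    intro n
    induction n with
    | zero => exact Subgroup.upperCentralSeries_zero H
    | succ n ih =>
      rw [eq_bot_iff]
      intro x hx
      rw [Subgroup.mem_upperCentralSeries_succ_iff] at hx
      rw [← hbot, Subgroup.mem_center_iff]
      intro y
      have h1 := hx y
      rw [ih, Subgroup.mem_bot, commutatorElement_eq_one_iff_mul_comm] at h1
      exact h1.symm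
  rw [h n] at hn
  obtain ⟨x, y, hxy⟩ := exists_pair_ne H
  apply hxy
  have hx : x ∈ (⊥ : Subgroup H) := hn ▸ Subgroup.mem_top x
  have hy : y ∈ (⊥ : Subgroup H) := hn ▸ Subgroup.mem_top y
  rw [Subgroup.mem_bot] at hx hy
  rw [hx, hy]

/-- the quotient of two homomorphisms which agree modulo a central subgroup -/
def ugsr_chi {K : Type} [Field K] {Ω : Type} [Field Ω] [Algebra K Ω] {H : Type} [Group H]
    (Z : Subgroup H) (hZ : ∀ w ∈ Z, ∀ h : H, w * h = h * w)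
    (φ₀ φ : Gal(Ω/K) →* H) (h : ∀ σ, (φ₀ σ)⁻¹ * φ σ ∈ Z) : Gal(Ω/K) →* Z where
  toFun σ := ⟨(φ₀ σ)⁻¹ * φ σ, h σ⟩
  map_one' := Subtype.ext (by
    change (φ₀ 1)⁻¹ * φ 1 = 1
    rw [map_one, map_one, inv_one, mul_one])
  map_mul' σ τ := Subtype.ext (by
    change (φ₀ (σ * τ))⁻¹ * φ (σ * τ) = ((φ₀ σ)⁻¹ * φ σ) * ((φ₀ τ)⁻¹ * φ τ)
    have hc := hZ ((φ₀ σ)⁻¹ * φ σ) (h σ) (φ₀ τ)⁻¹
    rw [map_mul, map_mul, mul_inv_rev, ← mul_assoc ((φ₀ σ)⁻¹ * φ σ), hc]
    group)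

theorem ugsr_chi_coe {K : Type} [Field K] {Ω : Type} [Field Ω] [Algebra K Ω] {H : Type} [Group H]
    (Z : Subgroup H) (hZ : ∀ w ∈ Z, ∀ h : H, w * h = h * w)
    (φ₀ φ : Gal(Ω/K) →* H) (h : ∀ σ, (φ₀ σ)⁻¹ * φ σ ∈ Z) (σ : Gal(Ω/K)) :
    ((ugsr_chi Z hZ φ₀ φ h σ : Z) : H) = (φ₀ σ)⁻¹ * φ σ := rfl

theorem ugsr_chi_ft {K : Type} [Field K] {Ω : Type} [Field Ω] [Algebra K Ω] {H : Type} [Group H]
    (Z : Subgroup H) (hZ : ∀ w ∈ Z, ∀ h : H, w * h = h * w)
    (φ₀ φ : Gal(Ω/K) →* H) (h : ∀ σ, (φ₀ σ)⁻¹ * φ σ ∈ Z) (h0 : H38.ML.FT φ₀) (h1 : H38.ML.FT φ) :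
    H38.ML.FT (ugsr_chi Z hZ φ₀ φ h) := by
  obtain ⟨E, hE, hle⟩ := h0
  obtain ⟨E', hE', hle'⟩ := h1
  refine ⟨E ⊔ E', inferInstance, fun σ hσ => ?_⟩
  have h1 : σ ∈ E.fixingSubgroup := IntermediateField.fixingSubgroup_antitone le_sup_left hσ
  have h2 : σ ∈ E'.fixingSubgroup := IntermediateField.fixingSubgroup_antitone le_sup_right hσ
  have h3 := hle h1
  have h4 := hle' h2
  rw [MonoidHom.mem_ker] at h3 h4 ⊢
  apply Subtype.ext
  rw [ugsr_chi_coe, h3, h4, inv_one, mul_one]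
  rfl

theorem ugsr_aux (D : RD0 K p ζ) (L : LDs D Ω) (n : ℕ) (hn : 0 < n) (z : K)
    (hz : IsPrimitiveRoot z n) (hS : ∀ v : Pl K, ((n : ℕ) : 𝓞 K) ∈ v.asIdeal → v ∈ D.S0) (N : ℕ) :
    ∀ (H : Type) [Group H] [Finite H] (_ : Group.IsNilpotent H) (_ : Nat.card H ∣ n)
      (_ : Nat.card H = N),
    ∃ C : ℕ, ∀ Rs : Finset (Gal(Ω/K) →* H), (∀ φ ∈ Rs, H38.ML.FT φ) →
      (∀ φ ∈ Rs, ∀ φ' ∈ Rs, ∀ v, v ∉ D.S0 → ∀ τ ∈ inr L v, φ τ = φ' τ) → Rs.card ≤ C := by
  induction N using Nat.strong_induction_on with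
  | _ N IH =>
  intro H _ _ hnil hdvd hN
  rcases subsingleton_or_nontrivial H with hsub | hnt
  · refine ⟨1, fun Rs _ _ => ?_⟩
    rw [Finset.card_le_one]
    intro a _ b _
    apply MonoidHom.ext
    intro σ
    exact Subsingleton.elim _ _
  have hcnt := ugsr_center H hnil
  have hcard1 : 1 < Nat.card (Subgroup.center H) := Finite.one_lt_card
  set l : ℕ := (Nat.card (Subgroup.center H)).minFac with hl
  have hlp : l.Prime := Nat.minFac_prime hcard1.ne'
  have hfact : Fact l.Prime := ⟨hlp⟩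
  obtain ⟨c, hc⟩ := exists_prime_orderOf_dvd_card' (G := Subgroup.center H) l (Nat.minFac_dvd _)
  set Z : Subgroup H := Subgroup.zpowers (c : H) with hZdef
  have hcH : orderOf (c : H) = l := by rw [Subgroup.orderOf_coe, hc]
  have hZle : Z ≤ Subgroup.center H := by
    rw [hZdef, Subgroup.zpowers_le]
    exact c.2
  have hZc : ∀ w ∈ Z, ∀ h : H, w * h = h * w := fun w hw h =>
    ((Subgroup.mem_center_iff.mp (hZle hw)) h).symm
  have hZn : Z.Normal := ⟨fun w hw g => by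
    rw [← hZc w hw g, mul_inv_cancel_right]
    exact hw⟩
  have hZcard : Nat.card Z = l := by rw [hZdef, Nat.card_zpowers, hcH]
  have hcq := Subgroup.card_eq_card_quotient_mul_card_subgroup Z
  have hqdvd : Nat.card (H ⧸ Z) ∣ n := (Dvd.intro _ hcq.symm).trans hdvd
  have hldvd : l ∣ n := (Dvd.intro_left _ (by rw [← hZcard]; exact hcq.symm)).trans hdvd
  have hqpos : 0 < Nat.card (H ⧸ Z) := Nat.card_pos
  have hqlt : Nat.card (H ⧸ Z) < N := by
    rw [← hN, hcq, hZcard]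
    have := hlp.two_le
    nlinarith
  have hqnil : Group.IsNilpotent (H ⧸ Z) := inferInstance
  obtain ⟨C₁, hC₁⟩ := IH _ hqlt (H ⧸ Z) hqnil hqdvd rfl
  obtain ⟨d, hd⟩ := hldvd
  have hξ : IsPrimitiveRoot (z ^ d) l := hz.pow hn (by rw [hd, mul_comm])
  have hSl : ∀ v : Pl K, Above l v → v ∈ D.S0 := by
    intro v hv
    apply hS v
    rw [hd, Nat.cast_mul]
    exact Ideal.mul_mem_right _ _ hv
  obtain ⟨C₂, hC₂⟩ := uord_fin hlp hξ D L hSl
  refine ⟨C₂ * C₁, fun Rs hft hag => ?_⟩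
  set F : (Gal(Ω/K) →* H) → (Gal(Ω/K) →* H ⧸ Z) := fun φ => (QuotientGroup.mk' Z).comp φ with hF
  have him : (Rs.image F).card ≤ C₁ := by
    refine hC₁ _ ?_ ?_
    · intro ψ hψ
      obtain ⟨φ, hφ, rfl⟩ := Finset.mem_image.mp hψ
      exact H38.ML.ft_comp _ _ (hft φ hφ)
    · intro ψ hψ ψ' hψ' v hv τ hτ
      obtain ⟨φ, hφ, rfl⟩ := Finset.mem_image.mp hψ
      obtain ⟨φ', hφ', rfl⟩ := Finset.mem_image.mp hψ'
      rw [hF]
      simp only [MonoidHom.comp_apply]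
      rw [hag φ hφ φ' hφ' v hv τ hτ]
  refine (Finset.card_le_mul_card_image (f := F) Rs C₂ ?_).trans (Nat.mul_le_mul_left _ him)
  intro ψ hψ
  obtain ⟨φ₀, hφ₀, hψ₀⟩ := Finset.mem_image.mp hψ
  have hmem : ∀ φ : {φ // φ ∈ Rs.filter (fun a => F a = ψ)}, ∀ σ, (φ₀ σ)⁻¹ * φ.1 σ ∈ Z := by
    intro φ σ
    have h1 := (Finset.mem_filter.mp φ.2).2.trans hψ₀.symm
    have h2 : (QuotientGroup.mk' Z) (φ.1 σ) = (QuotientGroup.mk' Z) (φ₀ σ) := DFunLike.congr_fun h1 σ
    exact QuotientGroup.eq.mp h2.symm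
  have hcZ : Nat.card (Multiplicative (ZMod l)) = l := by
    rw [Nat.card_congr Multiplicative.toAdd, Nat.card_zmod]
  let e : Z ≃* Multiplicative (ZMod l) := mulEquivOfPrimeCardEq hZcard hcZ
  let X : {φ // φ ∈ Rs.filter (fun a => F a = ψ)} → (Gal(Ω/K) →* Multiplicative (ZMod l)) :=
    fun φ => e.toMonoidHom.comp (ugsr_chi Z hZc φ₀ φ.1 (hmem φ))
  have hXinj : Function.Injective X := by
    intro φ φ' h
    apply Subtype.ext
    apply MonoidHom.ext
    intro σ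
    have h1 : e (ugsr_chi Z hZc φ₀ φ.1 (hmem φ) σ) = e (ugsr_chi Z hZc φ₀ φ'.1 (hmem φ') σ) :=
      DFunLike.congr_fun h σ
    have h2 := congrArg Subtype.val (e.injective h1)
    rw [ugsr_chi_coe, ugsr_chi_coe] at h2
    exact mul_left_cancel h2
  have h3 := hC₂ (Finset.univ.image X) (by
    intro χ hχ
    obtain ⟨φ, -, rfl⟩ := Finset.mem_image.mp hχ
    have hφR := (Finset.mem_filter.mp φ.2).1
    refine ⟨H38.ML.ft_comp _ _ (ugsr_chi_ft Z hZc φ₀ φ.1 (hmem φ) (hft _ hφ₀) (hft _ hφR)), ?_⟩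
    intro v hv τ hτ
    have h4 : ugsr_chi Z hZc φ₀ φ.1 (hmem φ) τ = 1 := by
      apply Subtype.ext
      rw [ugsr_chi_coe, hag φ₀ hφ₀ φ.1 hφR v hv τ hτ, inv_mul_cancel]
      rfl
    show e (ugsr_chi Z hZc φ₀ φ.1 (hmem φ) τ) = 1
    rw [h4, map_one])
  rw [Finset.card_image_of_injective _ hXinj, Finset.card_univ, Fintype.card_coe] at h3
  exact h3

theorem ugsr (D : RD0 K p ζ) (L : LDs D Ω) (n : ℕ) (hn : 0 < n) (z : K)
    (hz : IsPrimitiveRoot z n) (hS : ∀ v : Pl K, ((n : ℕ) : 𝓞 K) ∈ v.asIdeal → v ∈ D.S0)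
    (H : Type) [Group H] [Finite H] (hnil : Group.IsNilpotent H) (hH : Nat.card H ∣ n) :
    ∃ C : ℕ, ∀ Rs : Finset (Gal(Ω/K) →* H), (∀ φ ∈ Rs, H38.ML.FT φ) →
      (∀ φ ∈ Rs, ∀ φ' ∈ Rs, ∀ v, v ∉ D.S0 → ∀ τ ∈ inr L v, φ τ = φ' τ) → Rs.card ≤ C :=
  ugsr_aux D L n hn z hz hS _ H hnil hH rfl

end H63.BU
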