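import Pool.Agent.H63.BU.UCnt
import Pool.Agent.H38.BB.CUb

/-!
# BU-UMAIN: the upper bound

`gup`: for `φ ∈ Rs` let `E_φ` be the set of the ramified primes outside `S0` which are not of a type, `f_φ i` the primes of type `i` and `b_φ` from `ukum`. For given `E` and `b` there are at most `C (#G)^{#E} SW D c b E 1 (UY B a E)` elements (`ucnt`), by `ub` at most
`C' (#G)^{#E} (nr E)^η UY (1 + log UY)^{N-1}` and `#(Bb E) ≤ (#U p^{#E})^m`; the sum over `E` converges (`usum`).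
-/

set_option autoImplicit false

open scoped NumberField
open IsDedekindDomain
open scoped Classical

noncomputable section

namespace H63.BU

open H63.MA H38.BB H38.BG

variable {K : Type} [Field K] [NumberField K] {Ω : Type} [Field Ω] [Algebra K Ω] [IsAlgClosure K Ω]
  {p : ℕ} {ζ : K}

/-- the two finite sets of primes attached to a homomorphism -/
theorem umain_sets {D : RD0 K p ζ} (L : LDs D Ω) {m u w N : ℕ} {G : Type} [Group G]
    (Dg : GT p m u w N G) (φ : Gal(Ω/K) →* G) (hφ : H38.ML.FT φ) :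
    ∃ (f : Fin N → Finset (Pl K)) (E : Finset (Pl K)), (∀ i v, v ∈ f i ↔ Ty Dg L φ i v) ∧
      ∀ v, v ∈ E ↔ Rm L φ v ∧ ∀ i, ¬ Ty Dg L φ i v := by
  have hfin := uinr_fin L φ hφ
  have h1 : ∀ i, {v : Pl K | Ty Dg L φ i v}.Finite := fun i =>
    hfin.subset fun v hv => (ulead_ty L Dg φ i v hv).1
  have h2 : {v : Pl K | Rm L φ v ∧ ∀ i, ¬ Ty Dg L φ i v}.Finite :=
    hfin.subset fun v hv => hv.1
  refine ⟨fun i => (h1 i).toFinset, h2.toFinset, fun i v => ?_, fun v => ?_⟩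
  · rw [Set.Finite.mem_toFinset]
    rfl
  · rw [Set.Finite.mem_toFinset]
    rfl

theorem gup (hp : p.Prime) (hp2 : MOne p K) (hζ : IsPrimitiveRoot ζ p) (D : RD K p ζ)
    (L : LDs D.toRD0 Ω) {m u w N : ℕ} {G : Type} [Group G] [Finite G]
    (hnil : Group.IsNilpotent G) (Dg : GT p m u w N G) (hN : 1 ≤ N) (z : K)
    (hz : IsPrimitiveRoot z (Nat.card G))
    (hS : ∀ v : Pl K, ((Nat.card G : ℕ) : 𝓞 K) ∈ v.asIdeal → v ∈ D.S0) (a : ℕ) (ha : 0 < a)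
    (ix : Subgroup G → ℕ) (h1 : ∀ H, H ≠ ⊥ → a ≤ ix H)
    (h2 : ∀ g : G, g ≠ 1 → ix (Subgroup.zpowers g) ≤ a → ∃ i, IsConj g (Dg.g i)) :
    ∃ C B₀ : ℝ, 0 < C ∧ ∀ B : ℝ, B₀ ≤ B → ∀ Rs : Finset (Gal(Ω/K) →* G),
      (∀ φ ∈ Rs, H38.ML.FT φ ∧ Function.Surjective φ ∧ ∀ T : Finset (Pl K),
        (∀ v ∈ T, v ∉ D.S0) → ∏ v ∈ T, (nm v : ℝ) ^ ix ((inr L v).map φ) ≤ B) →
      (Rs.card : ℝ) ≤ C * B ^ (1 / (a : ℝ)) * Real.log B ^ (N - 1) := by
  have : NeZero p := ⟨hp.ne_zero⟩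
  have haR : (0 : ℝ) < (a : ℝ) := by exact_mod_cast ha
  have ha1 : (1 : ℝ) ≤ (a : ℝ) := by exact_mod_cast ha
  obtain ⟨U, hU1, hU2⟩ := unit_reps hp D.S0
  obtain ⟨C₁, hcnt⟩ := ucnt hp hζ D.toRD0 L hnil Dg z hz hS a ha ix h1 h2
  set η : ℝ := 1 / (4 * (a : ℝ)) with hη
  have hη0 : 0 < η := by positivity
  obtain ⟨C₂, hC₂, hub⟩ := ub hp hp2 hζ D Dg.cr hN η hη0
  set q : ℝ := (Nat.card G : ℝ) * (p : ℝ) ^ m with hq
  have hq0 : 0 ≤ q := by positivity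
  obtain ⟨C₃, hC₃, hsum⟩ := usum K a ha q hq0
  refine ⟨(C₁ : ℝ) * (U.card : ℝ) ^ m * C₂ * C₃ * 2 ^ (N - 1) + 1, 3, by positivity, ?_⟩
  intro B hB Rs hRs
  have hB1 : 1 ≤ B := by linarith
  have hB0 : 0 < B := by linarith
  have hlog1 : 1 ≤ Real.log B := by
    rw [Real.le_log_iff_exp_le hB0]
    exact Real.exp_one_lt_three.le.trans hB
  set X : ℝ := B ^ (1 / (a : ℝ)) with hX
  have hX1 : 1 ≤ X := Real.one_le_rpow hB1 (by positivity)
  have hX0 : 0 < X := by linarith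
  -- the data
  have hex : ∀ φ : Gal(Ω/K) →* G, ∃ (e : Finset (Pl K) × (Fin m → Kˣ)), φ ∈ Rs →
      (∃ f : Fin N → Finset (Pl K), (∀ i v, v ∈ f i ↔ Ty Dg L φ i v)) ∧
      (∀ v, v ∈ e.1 ↔ Rm L φ v ∧ ∀ i, ¬ Ty Dg L φ i v) ∧ e.2 ∈ Bb D.toRD0 U e.1 m ∧
      BS2 D.toRD0 e.2 e.1 ∧ 1 ≤ UY B a e.1 ∧ nr e.1 ≤ B ∧
      ∀ f : Fin N → Finset (Pl K), (∀ i v, v ∈ f i ↔ Ty Dg L φ i v) →
          SpR Dg.cr e.2 f ∧ wtR Dg.cr f (fun v k => D.LL v (akR D.toRD0 Dg.cr e.2 f k)) =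
            ∏ i, (Nat.card {h : G // IsConj h (Dg.g i)} : ℝ) ^ (f i).card := by
    intro φ
    by_cases hφ : φ ∈ Rs
    · obtain ⟨hft, hs, hT⟩ := hRs φ hφ
      obtain ⟨f, E, hf, hE⟩ := umain_sets L Dg φ hft
      obtain ⟨b, hb, hbs, -, hsp, hw⟩ := ukum hp hζ D.toRD0 L Dg U hU1 hU2 φ hft hs f E hf hE
      obtain ⟨-, -, -, h3, h4, -⟩ := ucnt_nr hp hζ D.toRD0 L Dg hS a ha ix h1 h2 φ hft B hT f E hf hE
      refine ⟨(E, b), fun _ => ⟨⟨f, hf⟩, hE, hb, hbs, h3, h4, fun f' hf' => ?_⟩⟩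
      have hff : f' = f := by
        funext i
        ext v
        rw [hf' i v, hf i v]
      rw [hff]
      exact ⟨hsp, hw⟩
    · exact ⟨(∅, fun _ => 1), fun h => absurd h hφ⟩
  choose e he using hex
  -- the fibres
  have hfib : ∀ (E : Finset (Pl K)) (b : Fin m → Kˣ),
      (((Rs.filter fun φ => (e φ).1 = E).filter fun φ => (e φ).2 = b).card : ℝ) ≤
        (C₁ : ℝ) * (Nat.card G : ℝ) ^ E.card *
          (C₂ * nr E ^ η * UY B a E * (2 * Real.log B) ^ (N - 1)) := by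
    intro E b
    have hnr := one_le_nr E
    have hUY := uy_le B hB1 a E
    have hrhs : 0 ≤ (C₁ : ℝ) * (Nat.card G : ℝ) ^ E.card *
          (C₂ * nr E ^ η * UY B a E * (2 * Real.log B) ^ (N - 1)) := by
      have : 0 ≤ UY B a E := hUY.1
      positivity
    rcases ((Rs.filter fun φ => (e φ).1 = E).filter fun φ => (e φ).2 = b).eq_empty_or_nonempty
      with h0 | ⟨φ₀, hφ₀⟩
    · rw [h0, Finset.card_empty, Nat.cast_zero]
      exact hrhs
    rw [Finset.mem_filter, Finset.mem_filter] at hφ₀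
    obtain ⟨⟨hφ₀, hE₀⟩, hb₀⟩ := hφ₀
    obtain ⟨-, -, -, hbs, hUY1, -, -⟩ := he φ₀ hφ₀
    rw [hE₀] at hUY1
    rw [hE₀, hb₀] at hbs
    have h3 := hcnt B E b ((Rs.filter fun φ => (e φ).1 = E).filter fun φ => (e φ).2 = b) (by
      intro φ hφ
      rw [Finset.mem_filter, Finset.mem_filter] at hφ
      obtain ⟨⟨hφ, hE⟩, hb⟩ := hφ
      obtain ⟨-, b2, -, -, -, -, b7⟩ := he φ hφ
      rw [hE] at b2
      rw [hb] at b7
      exact ⟨(hRs φ hφ).1, (hRs φ hφ).2.2, b2, b7⟩)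
    have h4 := hub b E hbs (UY B a E) hUY1
    have hlogU : Real.log (UY B a E) ≤ Real.log B := by
      have h5 : UY B a E ≤ B := by
        refine hUY.2.trans ?_
        calc B ^ (1 / (a : ℝ)) ≤ B ^ (1 : ℝ) := by
              refine Real.rpow_le_rpow_of_exponent_le hB1 ?_
              rw [div_le_one haR]
              exact ha1
          _ = B := Real.rpow_one B
      exact Real.log_le_log (by linarith) h5
    have hlogU0 : 0 ≤ Real.log (UY B a E) := Real.log_nonneg hUY1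
    have h6 : (1 + Real.log (UY B a E)) ^ (N - 1) ≤ (2 * Real.log B) ^ (N - 1) :=
      pow_le_pow_left₀ (by linarith) (by linarith) _
    have h7 : SW D.toRD0 Dg.cr b E (fun _ => 1) (UY B a E) ≤
        C₂ * nr E ^ η * UY B a E * (2 * Real.log B) ^ (N - 1) := by
      refine h4.trans ?_
      refine mul_le_mul_of_nonneg_left h6 ?_
      have : 0 ≤ UY B a E := hUY.1
      positivity
    refine h3.trans ?_
    exact mul_le_mul_of_nonneg_left h7 (by positivity)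
  have hcardE : ∀ E : Finset (Pl K), (((Rs.filter fun φ => (e φ).1 = E).card : ℕ) : ℝ) ≤
      ((U.card : ℝ) * (p : ℝ) ^ E.card) ^ m * ((C₁ : ℝ) * (Nat.card G : ℝ) ^ E.card *
          (C₂ * nr E ^ η * UY B a E * (2 * Real.log B) ^ (N - 1))) := by
    intro E
    have hmap : ∀ φ ∈ Rs.filter fun φ => (e φ).1 = E, (e φ).2 ∈ Bb D.toRD0 U E m := by
      intro φ hφ
      rw [Finset.mem_filter] at hφ
      obtain ⟨-, -, b3, -⟩ := he φ hφ.1
      rwa [hφ.2] at b3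
    have hUY := uy_le B hB1 a E
    have hnr := one_le_nr E
    rw [Finset.card_eq_sum_card_fiberwise hmap]
    push_cast
    calc ∑ b ∈ Bb D.toRD0 U E m,
          (((Rs.filter fun φ => (e φ).1 = E).filter fun φ => (e φ).2 = b).card : ℝ) ≤
        ∑ b ∈ Bb D.toRD0 U E m, (C₁ : ℝ) * (Nat.card G : ℝ) ^ E.card *
          (C₂ * nr E ^ η * UY B a E * (2 * Real.log B) ^ (N - 1)) :=
          Finset.sum_le_sum fun b _ => hfib E b
      _ = ((Bb D.toRD0 U E m).card : ℝ) * ((C₁ : ℝ) * (Nat.card G : ℝ) ^ E.card *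
          (C₂ * nr E ^ η * UY B a E * (2 * Real.log B) ^ (N - 1))) := by
          rw [Finset.sum_const, nsmul_eq_mul]
      _ ≤ _ := by
          refine mul_le_mul_of_nonneg_right ?_ ?_
          · have h5 := ubb_card D.toRD0 U E m
            exact_mod_cast h5
          · have : 0 ≤ UY B a E := hUY.1
            positivity
  have hmapE : ∀ φ ∈ Rs, (e φ).1 ∈ AF K B := by
    intro φ hφ
    obtain ⟨-, -, -, -, -, b6, -⟩ := he φ hφ
    exact mem_AF.2 b6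
  have hQ : ∀ E : Finset (Pl K), ((U.card : ℝ) * (p : ℝ) ^ E.card) ^ m *
      ((C₁ : ℝ) * (Nat.card G : ℝ) ^ E.card *
          (C₂ * nr E ^ η * UY B a E * (2 * Real.log B) ^ (N - 1))) =
      ((C₁ : ℝ) * (U.card : ℝ) ^ m * C₂ * X * (2 * Real.log B) ^ (N - 1)) *
        (q ^ E.card * nr E ^ η * ∏ v ∈ E, (nm v : ℝ) ^ (-((co a v : ℝ) / (a : ℝ)))) := by
    intro E
    have e1 : q ^ E.card = (Nat.card G : ℝ) ^ E.card * ((p : ℝ) ^ E.card) ^ m := by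
      rw [hq, mul_pow, ← pow_mul, ← pow_mul, mul_comm m]
    have e2 : UY B a E = X * ∏ v ∈ E, (nm v : ℝ) ^ (-((co a v : ℝ) / (a : ℝ))) := rfl
    rw [e1, e2, mul_pow]
    ring
  have hcard := Finset.card_eq_sum_card_fiberwise (f := fun φ => (e φ).1) (s := Rs) (t := AF K B)
    (fun φ hφ => hmapE φ hφ)
  have hlogp : 0 ≤ Real.log B ^ (N - 1) := by positivity
  calc (Rs.card : ℝ) = ∑ E ∈ AF K B, (((Rs.filter fun φ => (e φ).1 = E).card : ℕ) : ℝ) := by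
        rw [hcard]
        push_cast
        rfl
    _ ≤ ∑ E ∈ AF K B, ((C₁ : ℝ) * (U.card : ℝ) ^ m * C₂ * X * (2 * Real.log B) ^ (N - 1)) *
        (q ^ E.card * nr E ^ η * ∏ v ∈ E, (nm v : ℝ) ^ (-((co a v : ℝ) / (a : ℝ)))) := by
        refine Finset.sum_le_sum fun E _ => ?_
        rw [← hQ E]
        exact hcardE E
    _ = ((C₁ : ℝ) * (U.card : ℝ) ^ m * C₂ * X * (2 * Real.log B) ^ (N - 1)) *
        ∑ E ∈ AF K B, (q ^ E.card * nr E ^ η *
          ∏ v ∈ E, (nm v : ℝ) ^ (-((co a v : ℝ) / (a : ℝ)))) := by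
        rw [Finset.mul_sum]
    _ ≤ ((C₁ : ℝ) * (U.card : ℝ) ^ m * C₂ * X * (2 * Real.log B) ^ (N - 1)) * C₃ := by
        refine mul_le_mul_of_nonneg_left (hsum _) ?_
        positivity
    _ = ((C₁ : ℝ) * (U.card : ℝ) ^ m * C₂ * C₃ * 2 ^ (N - 1)) * (X * Real.log B ^ (N - 1)) := by
        rw [mul_pow]
        ring
    _ ≤ ((C₁ : ℝ) * (U.card : ℝ) ^ m * C₂ * C₃ * 2 ^ (N - 1) + 1) *
        (X * Real.log B ^ (N - 1)) := by
        refine mul_le_mul_of_nonneg_right (by linarith) (by positivity)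
    _ = ((C₁ : ℝ) * (U.card : ℝ) ^ m * C₂ * C₃ * 2 ^ (N - 1) + 1) * X *
        Real.log B ^ (N - 1) := by ring

end H63.BU
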