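import Pool.Agent.H63.BU.UDef

/-!
# [H63 BU UORD] characters of prime order l which are trivial on all inertia groups outside S0, 80-130 lines. File Pool/Agent/H63/BU/UOrd.lean

`l` a prime, `ξ ∈ K` a primitive `l`-th root of unity (`l ≠ p` and `l = p` both allowed), all primes over `l` in `S0`.
* `uord_at`: for a prime `P` of `𝓞 Ω` over `v`, `¬ Above l v`, `ord v π = 1`: there is `L' : LD l ξ Ω v π` with `L'.P = P`. Copy the proof of `exists_LD` (Pool/Agent/H63/MA/GLoc.lean), which takes any `P` over `v`.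
* `uord`: if `kc l ξ Ω x` is trivial on `inr L v`, `v ∉ S0`, then `l ∣ ord v x`. Proof: `uord_at` for `π = D.pi v` (`D.pi_self`), `P = (L.ld v hv).P`; `L'.t ∈ inr L v` (`L'.ht`), so `kk l ξ x L'.t = 0`, and it is `ord v x` by `ld_kk_t`.
* `uord_unit`: if `l ∣ ord v x` for all `v ∉ S0` then `x = u y^l` with an `S0`-unit `u` (copy of `unit_of_ord` in Pool/Agent/H63/MA/GUpA.lean, with `l` in place of `p` in the exponents).
* `uord_fin`: there is `C` such that every finite set `Xs` of characters `χ : Γ → Multiplicative (ZMod l)` of finite type, trivial on all `inr L v` (`v ∉ S0`), has at most `C` elements. Proof: `unit_reps hl D.S0` (GUpA) gives a finite set `U`; `χ = kc x` (`kc_all`), `l ∣ ord v x` for `v ∉ S0`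
  (`uord`), `x = u y^l` (`uord_unit`), `u = u' y'^l` with `u' ∈ U`, so `χ = kc u'` (`kk_mul_arg`, `kk_eq_zero_iff`, as in `gupa_key`). So `Xs` is contained in the image of `U`: `C = #U`.
-/

set_option autoImplicit false

open scoped NumberField
open IsDedekindDomain
open scoped Classical

noncomputable section

namespace H63.BU

open H63.MA H38.BB H38.BG

variable {K : Type} [Field K] [NumberField K] {Ω : Type} [Field Ω] [Algebra K Ω] [IsAlgClosure K Ω]
  {p : ℕ} {ζ : K}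

theorem uord_at (Ω : Type) [Field Ω] [Algebra K Ω] [IsAlgClosure K Ω] {l : ℕ} (hl : l.Prime)
    {ξ : K} (hξ : IsPrimitiveRoot ξ l) {v : Pl K} (hv : ¬ Above l v) {π : Kˣ} (hπ : ord v π = 1)
    (P : Ideal (𝓞 Ω)) (hP : P.IsPrime) (hPv : P.under (𝓞 K) = v.asIdeal) :
    ∃ L' : LD l ξ Ω v π, L'.P = P := by
  obtain ⟨w, hw⟩ := gloc_root (p := l) Ω hl π
  have hinj := (algebraMap K Ω).injective
  have hw0 : w ≠ 0 := by
    intro h0
    rw [h0, zero_pow hl.ne_zero] at hw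
    exact π.ne_zero (hinj (by rw [map_zero]; exact hw.symm))
  have hζΩ : IsPrimitiveRoot (algebraMap K Ω ξ) l := hξ.map_of_injective hinj
  obtain ⟨τ, hτ, hτw⟩ := H38.TD.ram_move l hl ξ hξ v P hP hPv π (by rw [← ord_eq_od]; exact hπ) w hw
  obtain ⟨k, hk⟩ := H38.TD.root_ratio (K := K) hl.pos hξ (x := τ w) hw0
    (by rw [← map_pow, hw, AlgEquiv.commutes])
  have hpk : ¬ l ∣ k := by
    intro hd
    apply hτw
    rw [hk, (hζΩ.pow_eq_one_iff_dvd k).2 hd, one_mul]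
  have hco : Nat.Coprime k l := ((Nat.Prime.coprime_iff_not_dvd hl).2 hpk).symm
  obtain ⟨j, hj⟩ : ∃ j : ℕ, k * j ≡ 1 [MOD l] := by
    obtain ⟨j, hj⟩ := Nat.exists_mul_mod_eq_one_of_coprime hco hl.one_lt
    exact ⟨j, by rw [Nat.ModEq, hj.2, Nat.mod_eq_of_lt hl.one_lt]⟩
  have hpow : ∀ j : ℕ, (τ ^ j) w = algebraMap K Ω ξ ^ (k * j) * w := by
    intro j
    induction j with
    | zero => simp
    | succ j ih =>
      rw [pow_succ', AlgEquiv.mul_apply, ih, map_mul, map_pow, AlgEquiv.commutes, hk, Nat.mul_succ,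
        pow_add]
      ring
  refine ⟨⟨P, hP, hPv, w, hw, τ ^ j, Subgroup.pow_mem _ hτ j, ?_⟩, rfl⟩
  rw [hpow j]
  congr 1
  have h1 : algebraMap K Ω ξ ^ (k * j) = algebraMap K Ω ξ ^ 1 := by
    rw [pow_eq_pow_mod (k * j) hζΩ.pow_eq_one, show k * j % l = 1 % l from hj,
      ← pow_eq_pow_mod 1 hζΩ.pow_eq_one]
  rw [h1, pow_one]

theorem uord {l : ℕ} (hl : l.Prime) {ξ : K} (hξ : IsPrimitiveRoot ξ l) {D : RD0 K p ζ}
    (L : LDs D Ω) {v : Pl K} (hv : v ∉ D.S0) (hlv : ¬ Above l v) (x : Kˣ)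
    (h : ∀ τ ∈ inr L v, kc l ξ Ω x τ = 1) : (l : ℤ) ∣ ord v x := by
  obtain ⟨L', hL'⟩ := uord_at Ω hl hξ hlv (D.pi_self v hv) (L.ld v hv).P (L.ld v hv).prime
    (L.ld v hv).under
  have hin : inr L v = (L.ld v hv).P.inertia Gal(Ω/K) := dif_pos hv
  have ht : L'.t ∈ inr L v := by
    rw [hin, ← hL']
    exact L'.ht
  have h1 : kk l ξ x L'.t = ord v x := ld_kk_t hl hξ hlv (D.pi_self v hv) L' x
  have h2 : kk l ξ x L'.t = 0 := by
    unfold kk
    rw [h _ ht, toAdd_one]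
  rw [h2] at h1
  exact (ZMod.intCast_zmod_eq_zero_iff_dvd _ l).1 h1.symm

omit [IsAlgClosure K Ω] in
theorem uord_unit {l : ℕ} (hl : l.Prime) (D : RD0 K p ζ) (x : Kˣ)
    (h : ∀ v, v ∉ D.S0 → (l : ℤ) ∣ ord v x) : ∃ u y : Kˣ, TUnit D.S0 u ∧ x = u * y ^ l := by
  have hfin := finite_ord x
  let F : Finset (Pl K) := hfin.toFinset.filter (fun v => v ∉ D.S0)
  let y : Kˣ := ∏ v ∈ F, D.pi v ^ (ord v x / l)
  have hy : ∀ w, w ∉ D.S0 → ord w y = ord w x / l := by
    intro w hw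
    have h1 : ord w y = ∑ v ∈ F, (ord v x / l) * ord w (D.pi v) := by
      rw [ord_prod]
      exact Finset.sum_congr rfl fun v _ => ord_zpow w (D.pi v) _
    rw [h1]
    by_cases hwF : w ∈ F
    · rw [Finset.sum_eq_single w]
      · rw [D.pi_self w hw, mul_one]
      · intro v hv hvw
        rw [D.pi_ne v w (Finset.mem_filter.1 hv).2 hw hvw.symm, mul_zero]
      · intro h2
        exact absurd hwF h2
    · have h2 : ord w x = 0 := by
        by_contra h3
        exact hwF (Finset.mem_filter.2 ⟨hfin.mem_toFinset.2 h3, hw⟩)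
      rw [h2, Int.zero_ediv]
      apply Finset.sum_eq_zero
      intro v hv
      have h3 : w ≠ v := by
        rintro rfl
        exact hwF hv
      rw [D.pi_ne v w (Finset.mem_filter.1 hv).2 hw h3, mul_zero]
  refine ⟨x * (y ^ l)⁻¹, y, ?_, ?_⟩
  · intro w hw
    rw [ord_mul, ord_inv, ord_pow, hy w hw]
    obtain ⟨k, hk⟩ := h w hw
    have hp0 : (l : ℤ) ≠ 0 := by exact_mod_cast hl.ne_zero
    rw [hk, Int.mul_ediv_cancel_left _ hp0]
    ring
  · rw [inv_mul_cancel_right]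

theorem uord_fin {l : ℕ} (hl : l.Prime) {ξ : K} (hξ : IsPrimitiveRoot ξ l) (D : RD0 K p ζ)
    (L : LDs D Ω) (hS : ∀ v : Pl K, Above l v → v ∈ D.S0) :
    ∃ C : ℕ, ∀ Xs : Finset (Gal(Ω/K) →* Multiplicative (ZMod l)),
      (∀ χ ∈ Xs, H38.ML.FT χ ∧ ∀ v, v ∉ D.S0 → ∀ τ ∈ inr L v, χ τ = 1) → Xs.card ≤ C := by
  obtain ⟨U, -, hU⟩ := unit_reps hl D.S0
  refine ⟨U.card, fun Xs hXs => ?_⟩
  have hsub : Xs ⊆ U.image (fun u => kc l ξ Ω u) := by
    intro χ hχ
    obtain ⟨hft, ht⟩ := hXs χ hχ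
    obtain ⟨a, ha⟩ := kc_all hl hξ χ hft
    have h1 : ∀ v, v ∉ D.S0 → (l : ℤ) ∣ ord v a := by
      intro v hv
      refine uord hl hξ L hv (fun h => hv (hS v h)) a fun τ hτ => ?_
      rw [← ha]
      exact ht v hv τ hτ
    obtain ⟨u, y, hu, hx⟩ := uord_unit hl D a h1
    obtain ⟨u', hu', y', hy'⟩ := hU u hu
    refine Finset.mem_image.2 ⟨u', hu', ?_⟩
    rw [ha]
    symm
    apply MonoidHom.ext
    intro σ
    have h5 : kk l ξ a σ = kk l ξ u' σ := by
      rw [hx, hy', mul_assoc, ← mul_pow, kk_mul_arg hl hξ]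
      have h6 : kk l ξ ((y' * y) ^ l) σ = 0 :=
        (kk_eq_zero_iff (Ω := Ω) hl hξ ((y' * y) ^ l)).2 ⟨y' * y, rfl⟩ σ
      rw [h6, add_zero]
    exact Multiplicative.toAdd.injective h5
  exact (Finset.card_le_card hsub).trans Finset.card_image_le

end H63.BU
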