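import Pool.Agent.H63.BU.UDef

/-!
# [H63 BU UINR] inertia groups: simultaneous generators, 80-130 lines. File Pool/Agent/H63/BU/UInr.lean

`inr L v` (file Pool/Agent/H38/BG/TDef.lean) is the inertia group of the chosen prime `(L.ld v h).P` for `v ∉ S0`, and `⊥` for `v ∈ S0`.
* `uinr_t`: `L.t v ∈ inr L v` (`LD.ht`; for `v ∈ S0` both are trivial).
* `uinr_cyc`: `n ∉ v` for all `v ∉ S0`, `H` a finite group of order `n`, `Rs` a finite set of homomorphisms `φ : Γ → H` of finite type. There is `τ ∈ inr L v` such that for every `σ ∈ inr L v` there is `k : ℤ` with `φ σ = φ τ ^ k` for all `φ ∈ Rs`.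
  Proof. For `v ∈ S0` take `τ = 1`, `k = 0`. For `v ∉ S0` apply `H38.BG.cyc` (file Pool/Agent/H38/BG/TCyc.lean) with `P = (L.ld v h).P` to `ψ = (φ)_{φ ∈ Rs} : Γ → (↥Rs → H)` (`MonoidHom.pi` or `MonoidHom.pi`), of finite type
  (`H38.ML.FT ψ` means: some `E.fixingSubgroup ≤ ψ.ker`, `E/K` finite: choose `E_φ` for `φ ∈ Rs` and take the supremum `⨆ φ, E_φ`, `IntermediateField.finiteDimensional_iSup_of_finite`, `IntermediateField.fixingSubgroup_antitone`).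
  `hc`: the order of the image divides `Nat.card (↥Rs → H) = n ^ #Rs` (`Subgroup.card_subgroup_dvd_card`, `Nat.card_fun`), so if it is in `v.asIdeal` then `n ^ #Rs ∈ v.asIdeal`, `n ∈ v.asIdeal` (prime), contradiction. `ψ σ ∈ zpowers (ψ τ)` gives `k`; evaluate at `φ`.
* `uinr_gen`: the case of one `φ`: `(inr L v).map φ = zpowers (φ τ)` for some `τ ∈ inr L v`.
* `uinr_fin`: `{v | Rm L φ v}` is finite: as `ram_finite` in Pool/Agent/H63/MA/GTw.lean (`H38.ML.factor`, `H38.ML.finite_not_unr`, `H38.ML.res_eq_one`).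
-/

set_option autoImplicit false

open scoped NumberField
open IsDedekindDomain
open scoped Classical

noncomputable section

namespace H63.BU

open H63.MA H38.BB H38.BG

variable {K : Type} [Field K] [NumberField K] {Ω : Type} [Field Ω] [Algebra K Ω] [IsAlgClosure K Ω]
  {p : ℕ} {ζ : K}

omit [IsAlgClosure K Ω] in
private theorem uinr_inr {D : RD0 K p ζ} (L : LDs D Ω) (v : Pl K) (hv : v ∉ D.S0) :
    inr L v = (L.ld v hv).P.inertia Gal(Ω/K) := by
  unfold inr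
  rw [dif_pos hv]

omit [IsAlgClosure K Ω] in
theorem uinr_t {D : RD0 K p ζ} (L : LDs D Ω) (v : Pl K) : L.t v ∈ inr L v := by
  unfold inr LDs.t
  by_cases hv : v ∉ D.S0
  · rw [dif_pos hv, dif_pos hv]
    exact (L.ld v hv).ht
  · rw [dif_neg hv, dif_neg hv]
    exact Subgroup.mem_bot.2 rfl

omit [NumberField K] [IsAlgClosure K Ω] in
private theorem uinr_ft {H : Type} [Group H] (Rs : Finset (Gal(Ω/K) →* H))
    (hR : ∀ φ ∈ Rs, H38.ML.FT φ) :
    H38.ML.FT (MonoidHom.pi fun φ : ↥Rs => (φ : Gal(Ω/K) →* H)) := by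
  have h1 : ∀ φ : ↥Rs, ∃ E : IntermediateField K Ω, FiniteDimensional K E ∧
      E.fixingSubgroup ≤ (φ : Gal(Ω/K) →* H).ker := fun φ => hR φ.1 φ.2
  choose E hE hle using h1
  have := hE
  refine ⟨⨆ φ, E φ, IntermediateField.finiteDimensional_iSup_of_finite, fun σ hσ => ?_⟩
  rw [MonoidHom.mem_ker]
  funext φ
  have h2 : σ ∈ (E φ).fixingSubgroup :=
    IntermediateField.fixingSubgroup_antitone (le_iSup E φ) hσ
  exact MonoidHom.mem_ker.1 (hle φ h2)

theorem uinr_cyc {D : RD0 K p ζ} (L : LDs D Ω) (n : ℕ)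
    (hS : ∀ v : Pl K, ((n : ℕ) : 𝓞 K) ∈ v.asIdeal → v ∈ D.S0) {H : Type} [Group H] [Finite H]
    (hH : Nat.card H = n) (Rs : Finset (Gal(Ω/K) →* H)) (hR : ∀ φ ∈ Rs, H38.ML.FT φ) (v : Pl K) :
    ∃ τ ∈ inr L v, ∀ σ ∈ inr L v, ∃ k : ℤ, ∀ φ ∈ Rs, φ σ = φ τ ^ k := by
  by_cases hv : v ∈ D.S0
  · have h1 : inr L v = ⊥ := by
      unfold inr
      rw [dif_neg (not_not.2 hv)]
    refine ⟨1, one_mem _, fun σ hσ => ⟨0, fun φ _ => ?_⟩⟩
    rw [h1, Subgroup.mem_bot] at hσ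
    rw [hσ, map_one, zpow_zero]
  · have hft := uinr_ft Rs hR
    set ψ : Gal(Ω/K) →* (↥Rs → H) := MonoidHom.pi fun φ : ↥Rs => (φ : Gal(Ω/K) →* H) with hψ
    have hc : ((Nat.card (((L.ld v hv).P.inertia Gal(Ω/K)).map ψ) : ℕ) : 𝓞 K) ∉ v.asIdeal := by
      intro h
      have h1 : Nat.card (((L.ld v hv).P.inertia Gal(Ω/K)).map ψ) ∣ Nat.card (↥Rs → H) :=
        Subgroup.card_subgroup_dvd_card _
      obtain ⟨c, hc⟩ := h1
      have h2 : Nat.card (↥Rs → H) = n ^ Nat.card ↥Rs := by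
        rw [Nat.card_fun, hH]
      have h3 : ((n ^ Nat.card ↥Rs : ℕ) : 𝓞 K) ∈ v.asIdeal := by
        rw [← h2, hc, Nat.cast_mul]
        exact v.asIdeal.mul_mem_right _ h
      rw [Nat.cast_pow] at h3
      exact hv (hS v (v.isPrime.mem_of_pow_mem _ h3))
    obtain ⟨τ, hτ, hcyc⟩ := cyc v (L.ld v hv).P (L.ld v hv).prime (L.ld v hv).under ψ hft hc
    rw [uinr_inr L v hv]
    refine ⟨τ, hτ, fun σ hσ => ?_⟩
    obtain ⟨k, hk⟩ := Subgroup.mem_zpowers_iff.1 (hcyc σ hσ)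
    refine ⟨k, fun φ hφ => ?_⟩
    have h1 := congrFun hk ⟨φ, hφ⟩
    exact h1.symm

theorem uinr_gen {D : RD0 K p ζ} (L : LDs D Ω) (n : ℕ)
    (hS : ∀ v : Pl K, ((n : ℕ) : 𝓞 K) ∈ v.asIdeal → v ∈ D.S0) {H : Type} [Group H] [Finite H]
    (hH : Nat.card H = n) (φ : Gal(Ω/K) →* H) (hφ : H38.ML.FT φ) (v : Pl K) :
    ∃ τ ∈ inr L v, (inr L v).map φ = Subgroup.zpowers (φ τ) := by
  obtain ⟨τ, hτ, h⟩ := uinr_cyc L n hS hH {φ} (fun ψ hψ => by
    rw [Finset.mem_singleton] at hψ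
    rw [hψ]
    exact hφ) v
  refine ⟨τ, hτ, le_antisymm ?_ ?_⟩
  · rintro _ ⟨σ, hσ, rfl⟩
    obtain ⟨k, hk⟩ := h σ hσ
    exact Subgroup.mem_zpowers_iff.2 ⟨k, (hk φ (Finset.mem_singleton_self φ)).symm⟩
  · rw [Subgroup.zpowers_le]
    exact Subgroup.mem_map_of_mem φ hτ

theorem uinr_fin {D : RD0 K p ζ} (L : LDs D Ω) {H : Type} [Group H]
    (φ : Gal(Ω/K) →* H) (hφ : H38.ML.FT φ) : {v : Pl K | Rm L φ v}.Finite := by
  obtain ⟨M, hfd, hgal, e, he, h⟩ := H38.ML.factor φ hφ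
  have : NumberField M := NumberField.of_module_finite K M
  have hfin := H38.ML.finite_not_unr K M
  have hinj : Function.Injective (fun v : Pl K => v.asIdeal) := by
    intro v w hvw
    exact HeightOneSpectrum.ext hvw
  refine (hfin.preimage hinj.injOn).subset ?_
  rintro v ⟨hv, τ, hτ, hne⟩
  refine ⟨v.isPrime, v.ne_bot, fun hun => hne ?_⟩
  rw [uinr_inr L v hv] at hτ
  set l := L.ld v hv with hl
  have := l.prime
  have hun' : H38.ML.Unr K M (l.P.under (𝓞 K)) := by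
    rw [l.under]
    exact hun
  have h1 := H38.ML.res_eq_one M l.P hun' τ hτ
  rw [← h, h1, map_one]

end H63.BU
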