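import Pool.Agent.H63.BU.UDef
import Pool.Agent.H63.MA.GUpB

/-!
# [H63 BU UKUM] the Kummer data of a surjective homomorphism, 150-220 lines (adaptation of GUpB). File Pool/Agent/H63/BU/UKum.lean

`U` a finite set of `S0`-units as in `unit_reps`; `φ : Γ → G` surjective of finite type; `f i` the primes of type `i`, `E` the other ramified primes (outside `S0`). There is `b ∈ Bb D U E m` (UDef: `b k = ε k * ∏_{v ∈ E} pi v ^ (y_v k)`, `ε k ∈ U`) with `BS2 D b E`,
`π (φ σ) = (kk (akR D Dg.cr b f k) σ)_k`, the spanning condition `SpR Dg.cr b f`, and `wtR Dg.cr f (LL v (akR D Dg.cr b f k)) = ∏_i (#class_i)^{#(f i)}`.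

Proof: as `upb` in Pool/Agent/H63/MA/GUpB.lean (copy its proof). `σ ↦ π (φ σ) k` is a character of finite type, `= kc (a' k)` (`kc_all`). For `v ∉ S0`: `ord v (a' k) = kk (a' k) (t v) = π (φ (t v)) k` modulo `p` (`ld_kk_t`), which is `(Dg.cr.x i) k` if `v ∈ f i` (`φ (t v)` is conjugate to `g i`; `π (g i) = ofAdd (mv ι (y i))` by `Dg.pie`;
`Dg.cr.x i = mv ι (y i)`), `0` if `v` is not ramified (`t v ∈ inr L v`), and anything if `v ∈ E`. Every `v ∉ S0` is in exactly one of the `f i`, `E`, or not ramified (a type `i` prime is ramified since `Dg.ne`; `Dg.uni`). Let `y_v k = π (φ (t v)) k` for `v ∈ E`: then `a' k / (∏_{v ∈ E} pi v ^ (y_v k).val * ∏_i ∏_{w ∈ f i} pi w ^ (x i k).val)` has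
orders divisible by `p` outside `S0`, hence is `u * z^p` with `u = ε k ∈ U` (`unit_of_ord`, `hU`). `b k = ε k * ∏_{v ∈ E} pi v ^ (y_v k).val` (in `XE D U E`). `BS2 D b E` (Pool/Agent/H63/MB/BDef.lean): `E` is outside `S0`, `ord v (b k) = 0` for `v ∉ S0`, `v ∉ E` (`D.pi_ne`, `U` consists of `S0`-units). `kk (akR k) = kk (a' k)`.
`SpR`: let `θ ≠ 0` and suppose `dt θ (x i) = 0` for all `i` with `f i ≠ ∅` and `bp b θ` is a `p`-th power. Then `bp (akR b f) θ` is a `p`-th power (`= bp b θ * ∏_i ∏_{w ∈ f i} pi w ^ (∑_k (x i k).val (θ k).val)`, and the exponents are divisible by `p` as `dt θ (x i) = 0`), so `∑ θ k kk (akR k) σ = 0` for all `σ` (`kk_eq_zero_iff`,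
`kk_prod_arg`), but `(kk (akR k) σ)_k = π (φ σ)` takes all values, so `θ = 0`. Weight: let `v ∈ f i`, `x φ(t v) x⁻¹ = g i`. `tfrob_z` (Pool/Agent/H38/BG/TFrob.lean, `he` from `Ty`) gives `F` with `φ F` commuting with `φ (t v)`, `kk (a k) F = LL v (a k)` for `a k = akR D Dg.cr b f k`. `h = x φ(F) x⁻¹` commutes with `g i = e (a i) (y i)` and
`π h = π (φ F) = (LL v (a k))_k`; `Dg.conj h (a i) (y i)` and `Dg.inj` give `bl β (π h) (y i) = 0`, so `dt θ (π h) = 0` for all `θ ∈ Θ i` (`Dg.ann`): the condition in `wtR` holds, the factor is `#Θ i = #class_i` (`Dg.card`).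
-/

set_option autoImplicit false

open scoped NumberField
open IsDedekindDomain
open scoped Classical

noncomputable section

namespace H63.BU

open H63.MA H38.BB H38.BG

variable {K : Type} [Field K] [NumberField K] {Ω : Type} [Field Ω] [Algebra K Ω] [IsAlgClosure K Ω]
  {p : ℕ} {ζ : K} {m u w N : ℕ}

/-- the orders of the product over `E` -/
theorem ukum_ordE (D : RD0 K p ζ) (E : Finset (Pl K)) (hE : ∀ w ∈ E, w ∉ D.S0) (n : Pl K → ℕ)
    (v : Pl K) (hv : v ∉ D.S0) :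
    ord v (∏ w : ↥E, D.pi w.1 ^ n w.1) = if v ∈ E then (n v : ℤ) else 0 := by
  rw [Finset.prod_coe_sort E fun w => D.pi w ^ n w, ord_prod]
  by_cases h : v ∈ E
  · rw [if_pos h, Finset.sum_eq_single v]
    · rw [ord_pow, D.pi_self v hv, mul_one]
    · intro w hw hne
      rw [ord_pow, D.pi_ne w v (hE w hw) hv (Ne.symm hne), mul_zero]
    · intro h'
      exact absurd h h'
  · rw [if_neg h]
    apply Finset.sum_eq_zero
    intro w hw
    have hne : v ≠ w := by
      rintro rfl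
      exact h hw
    rw [ord_pow, D.pi_ne w v (hE w hw) hv hne, mul_zero]

/-- the projection of conjugate elements -/
theorem ukum_conj {G : Type} [Group G] (Dg : GT p m u w N G) {a b : G} (h : IsConj a b) :
    Dg.π a = Dg.π b := by
  have h1 : IsConj (Dg.π a) (Dg.π b) := MonoidHom.map_isConj Dg.π h
  exact isConj_iff_eq.1 h1

/-- the inertia generator lies in the inertia group -/
theorem ukum_t {D : RD0 K p ζ} (L : LDs D Ω) {v : Pl K} (hv : v ∉ D.S0) : L.t v ∈ inr L v := by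
  have ht : L.t v = (L.ld v hv).t := dif_pos hv
  have hi : inr L v = (L.ld v hv).P.inertia Gal(Ω/K) := dif_pos hv
  rw [ht, hi]
  exact (L.ld v hv).ht

theorem ukum [NeZero p] (hp : p.Prime) (hζ : IsPrimitiveRoot ζ p) (D : RD0 K p ζ) (L : LDs D Ω)
    {G : Type} [Group G] [Finite G] (Dg : GT p m u w N G) (U : Finset Kˣ)
    (hU0 : ∀ x ∈ U, TUnit D.S0 x)
    (hU : ∀ x, TUnit D.S0 x → ∃ x' ∈ U, ∃ y : Kˣ, x = x' * y ^ p) (φ : Gal(Ω/K) →* G)
    (hφ : H38.ML.FT φ) (hs : Function.Surjective φ) (f : Fin N → Finset (Pl K))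
    (E : Finset (Pl K)) (hf : ∀ i v, v ∈ f i ↔ Ty Dg L φ i v)
    (hE : ∀ v, v ∈ E ↔ Rm L φ v ∧ ∀ i, ¬ Ty Dg L φ i v) :
    ∃ b ∈ Bb D U E m, BS2 D b E ∧
      (∀ σ k, Multiplicative.toAdd (Dg.π (φ σ)) k = kk p ζ (akR D Dg.cr b f k) σ) ∧
      SpR Dg.cr b f ∧
      wtR Dg.cr f (fun v k => D.LL v (akR D Dg.cr b f k)) =
        ∏ i, (Nat.card {h : G // IsConj h (Dg.g i)} : ℝ) ^ (f i).card := by
  have hpz : (((p : ℕ) : ℤ) : ZMod p) = 0 := by
    rw [Int.cast_natCast, ZMod.natCast_self]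
  have hab : ∀ v, v ∉ D.S0 → ¬ Above p v := fun v hv h => hv (D.above v h)
  -- the characters
  have hch : ∀ k : Fin m, ∃ a' : Kˣ, ∀ σ : Gal(Ω/K),
      kk p ζ a' σ = Multiplicative.toAdd (Dg.π (φ σ)) k := by
    intro k
    let ev : Multiplicative (Fin m → ZMod p) →* Multiplicative (ZMod p) :=
      AddMonoidHom.toMultiplicative (Pi.evalAddMonoidHom (fun _ : Fin m => ZMod p) k)
    obtain ⟨a', ha'⟩ := kc_all hp hζ (ev.comp (Dg.π.comp φ)) (by
      obtain ⟨E, hE, hle⟩ := hφ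
      refine ⟨E, hE, fun σ hσ => ?_⟩
      have h1 : φ σ = 1 := hle hσ
      rw [MonoidHom.mem_ker, MonoidHom.comp_apply, MonoidHom.comp_apply, h1, map_one, map_one])
    refine ⟨a', fun σ => ?_⟩
    unfold kk
    rw [← ha']
    rfl
  choose a' ha' using hch
  -- the orders of the `a' k`
  have hord : ∀ v, v ∉ D.S0 → ∀ k, ((ord v (a' k) : ℤ) : ZMod p) =
      Multiplicative.toAdd (Dg.π (φ (L.t v))) k := by
    intro v hv k
    rw [← ha' k, gupb_t L hv]
    exact (ld_kk_t hp hζ (hab v hv) (D.pi_self v hv) (L.ld v hv) (a' k)).symm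
  have hfS : ∀ i, ∀ w ∈ f i, w ∉ D.S0 := fun i w hw => ((hf i w).1 hw).1.1
  have hES : ∀ w ∈ E, w ∉ D.S0 := fun w hw => ((hE w).1 hw).1.1
  -- the product of the generators
  have hdvd : ∀ k v, v ∉ D.S0 → (p : ℤ) ∣ ord v (a' k *
      ((∏ w : ↥E, D.pi w.1 ^ (Multiplicative.toAdd (Dg.π (φ (L.t w.1))) k).val) *
        ∏ i, ∏ w ∈ f i, D.pi w ^ (Dg.cr.x i k).val)⁻¹) := by
    intro k v hv
    rw [ord_mul, ord_inv, ord_mul, gupb_ord D f hfS _ v hv,
      ukum_ordE D E hES (fun w => (Multiplicative.toAdd (Dg.π (φ (L.t w))) k).val) v hv,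
      ← sub_eq_add_neg, ← ZMod.intCast_zmod_eq_zero_iff_dvd, Int.cast_sub, hord v hv k,
      Int.cast_add, Int.cast_sum, sub_eq_zero]
    by_cases hvE : v ∈ E
    · have h0 : ∀ i, v ∉ f i := fun i h => ((hE v).1 hvE).2 i ((hf i v).1 h)
      rw [if_pos hvE, Int.cast_natCast, ZMod.natCast_zmod_val, Finset.sum_eq_zero, add_zero]
      intro i _
      rw [if_neg (h0 i), Int.cast_zero]
    · rw [if_neg hvE, Int.cast_zero, zero_add]
      by_cases h1 : ∃ i, v ∈ f i
      · obtain ⟨i₀, hi₀⟩ := h1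
        have hc₀ := ((hf i₀ v).1 hi₀).2.1
        rw [Finset.sum_eq_single i₀]
        · rw [if_pos hi₀, ukum_conj Dg hc₀, Int.cast_natCast, ZMod.natCast_zmod_val]
          have h2 : Dg.π (Dg.g i₀) = Multiplicative.ofAdd (mv Dg.ι (Dg.y i₀)) := Dg.pie _ _
          rw [h2, toAdd_ofAdd]
          rfl
        · intro i _ hi
          have h2 : v ∉ f i := by
            intro h
            have h3 := ((hf i v).1 h).2.1
            exact hi (Dg.uni i i₀ (h3.symm.trans hc₀))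
          rw [if_neg h2, Int.cast_zero]
        · intro h
          exact absurd (Finset.mem_univ _) h
      · have h0 : ∀ i, v ∉ f i := fun i h => h1 ⟨i, h⟩
        have h2 : ¬ Rm L φ v := fun h => hvE ((hE v).2 ⟨h, fun i hi => h0 i ((hf i v).2 hi)⟩)
        have h3 : φ (L.t v) = 1 := by
          by_contra h
          exact h2 ⟨hv, L.t v, ukum_t L hv, h⟩
        rw [h3, map_one]
        symm
        apply Finset.sum_eq_zero
        intro i _
        rw [if_neg (h0 i), Int.cast_zero]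
  have hε : ∀ k, ∃ u ∈ U, ∃ z : Kˣ, a' k *
      ((∏ w : ↥E, D.pi w.1 ^ (Multiplicative.toAdd (Dg.π (φ (L.t w.1))) k).val) *
        ∏ i, ∏ w ∈ f i, D.pi w ^ (Dg.cr.x i k).val)⁻¹ = u * z ^ p := by
    intro k
    obtain ⟨u', y, hu, hy⟩ := unit_of_ord hp D _ (hdvd k)
    obtain ⟨u'', hu', y', hy'⟩ := hU u' hu
    refine ⟨u'', hu', y' * y, ?_⟩
    rw [hy, hy', mul_pow, mul_assoc]
  choose ε hεU z hz using hε
  let b : Fin m → Kˣ := fun k => ε k *
    ∏ w : ↥E, D.pi w.1 ^ (Multiplicative.toAdd (Dg.π (φ (L.t w.1))) k).val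
  have hak : ∀ k, a' k = akR D Dg.cr b f k * z k ^ ((p : ℕ) : ℤ) := by
    intro k
    have h1 := hz k
    rw [mul_inv_eq_iff_eq_mul] at h1
    rw [h1, zpow_natCast]
    show _ = (ε k * ∏ w : ↥E, D.pi w.1 ^ (Multiplicative.toAdd (Dg.π (φ (L.t w.1))) k).val) *
      (∏ i, ∏ w ∈ f i, D.pi w ^ (Dg.cr.x i k).val) * z k ^ p
    rw [mul_assoc, mul_comm (z k ^ p), mul_assoc, mul_assoc, mul_assoc]
  have hkk : ∀ σ k, Multiplicative.toAdd (Dg.π (φ σ)) k = kk p ζ (akR D Dg.cr b f k) σ := by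
    intro σ k
    rw [← ha' k σ, hak k, kk_mul_arg hp hζ, kk_zpow_arg hp hζ, hpz, zero_mul, add_zero]
  have hbB : b ∈ Bb D U E m := by
    unfold Bb
    rw [Fintype.mem_piFinset]
    intro k
    unfold XE
    rw [Finset.mem_image]
    refine ⟨(ε k, fun w => Multiplicative.toAdd (Dg.π (φ (L.t w.1))) k), ?_, rfl⟩
    rw [Finset.mem_product]
    exact ⟨hεU k, Finset.mem_univ _⟩
  refine ⟨b, hbB, ⟨hES, ?_⟩, hkk, ?_, ?_⟩
  · intro k v hv hvE
    show ord v (ε k * _) = 0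
    rw [ord_mul, hU0 _ (hεU k) v hv,
      ukum_ordE D E hES (fun w => (Multiplicative.toAdd (Dg.π (φ (L.t w))) k).val) v hv,
      if_neg hvE, add_zero]
  · intro θ hθ
    by_contra hcon
    rw [not_or, not_not] at hcon
    obtain ⟨h0, hpow⟩ := hcon
    have h0' : ∀ i, f i ≠ ∅ → dt θ (Dg.cr.x i) = 0 := by
      intro i hi
      by_contra h
      exact h0 ⟨i, hi, h⟩
    apply hθ
    funext k
    obtain ⟨g, hg⟩ := Dg.sur (Multiplicative.ofAdd (Pi.single k (1 : ZMod p)))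
    obtain ⟨σ, rfl⟩ := hs g
    have h1 := (kk_eq_zero_iff (Ω := Ω) hp hζ _).2 hpow σ
    unfold bp at h1
    rw [kk_prod_arg hp hζ] at h1
    -- the values on `akR`
    have h2 : ∀ l : Fin m, kk p ζ (akR D Dg.cr b f l) σ = kk p ζ (b l) σ +
        ∑ i, ∑ w ∈ f i, Dg.cr.x i l * kk p ζ (D.pi w) σ := by
      intro l
      unfold akR
      rw [kk_mul_arg hp hζ, kk_prod_arg hp hζ]
      congr 1
      refine Finset.sum_congr rfl fun i _ => ?_
      rw [kk_prod_arg hp hζ]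
      refine Finset.sum_congr rfl fun w _ => ?_
      have h3 := kk_zpow_arg hp hζ (D.pi w) ((Dg.cr.x i l).val : ℤ) σ
      rw [zpow_natCast] at h3
      rw [h3, Int.cast_natCast, ZMod.natCast_zmod_val]
    have h4 : ∑ l, θ l * kk p ζ (b l) σ = 0 := by
      rw [← h1]
      refine Finset.sum_congr rfl fun l _ => ?_
      have h3 := kk_zpow_arg hp hζ (b l) ((θ l).val : ℤ) σ
      rw [zpow_natCast] at h3
      rw [h3, Int.cast_natCast, ZMod.natCast_zmod_val]
    have h5 : ∑ l, θ l * ∑ i, ∑ w ∈ f i, Dg.cr.x i l * kk p ζ (D.pi w) σ = 0 := by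
      have h6 : ∀ l, θ l * ∑ i, ∑ w ∈ f i, Dg.cr.x i l * kk p ζ (D.pi w) σ =
          ∑ i, ∑ w ∈ f i, θ l * Dg.cr.x i l * kk p ζ (D.pi w) σ := by
        intro l
        rw [Finset.mul_sum]
        refine Finset.sum_congr rfl fun i _ => ?_
        rw [Finset.mul_sum]
        refine Finset.sum_congr rfl fun w _ => ?_
        rw [mul_assoc]
      rw [Finset.sum_congr rfl fun l _ => h6 l, Finset.sum_comm]
      apply Finset.sum_eq_zero
      intro i _
      rw [Finset.sum_comm]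
      apply Finset.sum_eq_zero
      intro w hw
      rw [← Finset.sum_mul]
      have h7 : dt θ (Dg.cr.x i) = 0 := h0' i (by
        rintro h
        rw [h] at hw
        exact absurd hw (Finset.notMem_empty w))
      unfold dt at h7
      rw [h7, zero_mul]
    have h8 : ∑ l, θ l * Multiplicative.toAdd (Dg.π (φ σ)) l = 0 := by
      rw [← h4]
      rw [← add_zero (∑ l, θ l * kk p ζ (b l) σ), ← h5, ← Finset.sum_add_distrib]
      refine Finset.sum_congr rfl fun l _ => ?_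
      rw [hkk σ l, h2 l, mul_add]
    rw [hg, toAdd_ofAdd, Finset.sum_eq_single k] at h8
    · rwa [Pi.single_eq_same, mul_one] at h8
    · intro l _ hl
      rw [Pi.single_eq_of_ne hl, mul_zero]
    · intro h
      exact absurd (Finset.mem_univ _) h
  · unfold wtR
    refine Finset.prod_congr rfl fun i _ => ?_
    rw [← Finset.prod_const]
    refine Finset.prod_congr rfl fun v hv => ?_
    obtain ⟨⟨hvS, -⟩, hconj, he⟩ := (hf i v).1 hv
    rw [if_pos]
    · exact congrArg (Nat.cast) (Dg.card i)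
    · obtain ⟨F, hFt, hFk⟩ := tfrob_z hp hζ L φ hφ v hvS he (akR D Dg.cr b f)
      obtain ⟨c, hc⟩ := isConj_iff.1 hconj
      have h1 : (c * φ F * c⁻¹) * Dg.g i * (c * φ F * c⁻¹)⁻¹ = Dg.g i := by
        rw [mul_inv_eq_iff_eq_mul, ← hc]
        calc c * φ F * c⁻¹ * (c * φ (L.t v) * c⁻¹) = c * (φ F * φ (L.t v)) * c⁻¹ := by group
          _ = c * (φ (L.t v) * φ F) * c⁻¹ := by rw [hFt]
          _ = c * φ (L.t v) * c⁻¹ * (c * φ F * c⁻¹) := by group
      have h2 := Dg.conj (c * φ F * c⁻¹) (Dg.a i) (Dg.y i)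
      have h3 : Dg.π (c * φ F * c⁻¹) = Dg.π (φ F) := by
        rw [map_mul, map_mul, map_inv, mul_comm (Dg.π c), mul_inv_cancel_right]
      have h4 : Dg.e (Dg.a i + bl Dg.β (Multiplicative.toAdd (Dg.π (φ F))) (Dg.y i)) (Dg.y i) =
          Dg.e (Dg.a i) (Dg.y i) := by
        rw [← h3, ← h2]
        exact h1
      have h5 : bl Dg.β (Multiplicative.toAdd (Dg.π (φ F))) (Dg.y i) = 0 := by
        have h6 := (Dg.inj _ _ _ _ h4).1
        exact add_eq_left.1 h6
      have h7 := (Dg.ann i (Multiplicative.toAdd (Dg.π (φ F)))).2 h5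
      have h8 : (fun k => D.LL v (akR D Dg.cr b f k)) = Multiplicative.toAdd (Dg.π (φ F)) := by
        funext k
        rw [← hFk k, ← hkk F k]
      intro θ hθ
      show dt θ (fun k => D.LL v (akR D Dg.cr b f k)) = 0
      rw [h8]
      exact h7 θ hθ

end H63.BU
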