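import Pool.Agent.H63.BU.UDef
import Pool.Agent.H63.MA.PZb

/-!
# [H63 BU USUM] the sum over the other ramified primes, 80-130 lines. File Pool/Agent/H63/BU/USum.lean

* `ubb_card`: `#(Bb D U E m) ≤ (#U * p^{#E})^m` (`Finset.card_image_le`, `Fintype.card_fun`, `ZMod.card`, `Fintype.card_piFinset_const`).
* `usum_one`: `∑_v (nm v)^{η - co/a}` converges for `η = 1/(4a)`, `a ≥ 1`: for `nm v` prime the exponent is `η - 1 - 1/a ≤ -(1 + 3/(4a))` (`pz_summable` with `s = 1 + 3/(4a)`), otherwise it is `η - 1 = -σ`, `σ = 1 - 1/(4a) ≥ 3/4 > 1/2` (`deg_summable` in Pool/Agent/H63/MA/PZb.lean). Sum of the two (nonnegative) functions.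
* `usum`: for `C₁ ≥ 0` there is `C` with `∑_{E ∈ F} C₁^{#E} (nr E)^η ∏_{v ∈ E} (nm v)^{-co/a} ≤ C` for every finite set `F` of finite sets of primes. Proof: the term is `∏_{v ∈ E} C₁ (nm v)^{η - co/a}` (`Real.finsetProd_rpow`, `Real.rpow_add`), all terms are `≥ 0`; with `W` the union of the `E ∈ F` the sum is at most
  `∑_{E ⊆ W} ∏_{v ∈ E} t v = ∏_{v ∈ W} (1 + t v) ≤ exp(∑_{v ∈ W} t v) ≤ exp(∑' t)` (`Finset.prod_one_add`/`Finset.prod_add`, `Real.add_one_le_exp`).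
* `uy_le`: `UY B a E ≤ B^{1/a}` for `B ≥ 1` (all factors `≤ 1`), and `0 ≤ UY`.
-/

set_option autoImplicit false

open scoped NumberField
open IsDedekindDomain
open scoped Classical

noncomputable section

namespace H63.BU

open H63.MA H38.BB H38.BG

variable {K : Type} [Field K] [NumberField K] {p : ℕ} {ζ : K}

theorem ubb_card [NeZero p] (D : RD0 K p ζ) (U : Finset Kˣ) (E : Finset (Pl K)) (m : ℕ) :
    (Bb D U E m).card ≤ (U.card * p ^ E.card) ^ m := by
  unfold Bb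
  rw [Fintype.card_piFinset_const]
  refine Nat.pow_le_pow_left ?_ m
  unfold XE
  refine Finset.card_image_le.trans ?_
  rw [Finset.card_product, Finset.card_univ, Fintype.card_fun, ZMod.card, Fintype.card_coe]

theorem usum_one (K : Type) [Field K] [NumberField K] (a : ℕ) (ha : 0 < a) :
    Summable fun v : Pl K => (nm v : ℝ) ^ (1 / (4 * (a : ℝ)) - (co a v : ℝ) / (a : ℝ)) := by
  have ha1 : (1 : ℝ) ≤ a := by exact_mod_cast ha
  have ha0 : (0 : ℝ) < a := by linarith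
  have h1 : Summable fun v : Pl K => (nm v : ℝ) ^ (-(1 + 3 / (4 * (a : ℝ)))) :=
    pz_summable K (by
      have : (0 : ℝ) < 3 / (4 * (a : ℝ)) := by positivity
      linarith)
  have h2 : Summable fun v : Pl K => Set.indicator {v : Pl K | ¬ (nm v).Prime}
      (fun v => (nm v : ℝ) ^ (-(1 - 1 / (4 * (a : ℝ))))) v :=
    deg_summable K (by
      have : 1 / (4 * (a : ℝ)) ≤ 1 / 4 := by
        apply one_div_le_one_div_of_le <;> linarith
      linarith)
  refine Summable.of_nonneg_of_le (fun v => Real.rpow_nonneg (Nat.cast_nonneg _) _) (fun v => ?_)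
    (h1.add h2)
  have hn : (0 : ℝ) ≤ (nm v : ℝ) := Nat.cast_nonneg _
  by_cases hv : (nm v).Prime
  · have e : 1 / (4 * (a : ℝ)) - (co a v : ℝ) / (a : ℝ) = -(1 + 3 / (4 * (a : ℝ))) := by
      unfold co
      rw [if_pos hv]
      push_cast
      field_simp
      ring
    rw [e]
    refine le_add_of_nonneg_right ?_
    refine Set.indicator_nonneg (fun w _ => ?_) v
    exact Real.rpow_nonneg (Nat.cast_nonneg _) _
  · have e : 1 / (4 * (a : ℝ)) - (co a v : ℝ) / (a : ℝ) = -(1 - 1 / (4 * (a : ℝ))) := by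
      unfold co
      rw [if_neg hv]
      field_simp
      ring
    rw [e, Set.indicator_of_mem (show v ∈ {v : Pl K | ¬ (nm v).Prime} from hv)]
    refine le_add_of_nonneg_left ?_
    exact Real.rpow_nonneg (Nat.cast_nonneg _) _

theorem usum (K : Type) [Field K] [NumberField K] (a : ℕ) (ha : 0 < a) (C₁ : ℝ) (hC₁ : 0 ≤ C₁) :
    ∃ C : ℝ, 0 < C ∧ ∀ F : Finset (Finset (Pl K)),
      ∑ E ∈ F, C₁ ^ E.card * nr E ^ (1 / (4 * (a : ℝ))) *
        ∏ v ∈ E, (nm v : ℝ) ^ (-((co a v : ℝ) / (a : ℝ))) ≤ C := by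
  set t : Pl K → ℝ := fun v =>
    C₁ * (nm v : ℝ) ^ (1 / (4 * (a : ℝ)) - (co a v : ℝ) / (a : ℝ)) with ht
  have hts : Summable t := (usum_one K a ha).mul_left C₁
  have ht0 : ∀ v, 0 ≤ t v := fun v => mul_nonneg hC₁ (Real.rpow_nonneg (Nat.cast_nonneg _) _)
  refine ⟨Real.exp (∑' v, t v), Real.exp_pos _, fun F => ?_⟩
  have hterm : ∀ E : Finset (Pl K), C₁ ^ E.card * nr E ^ (1 / (4 * (a : ℝ))) *
      ∏ v ∈ E, (nm v : ℝ) ^ (-((co a v : ℝ) / (a : ℝ))) = ∏ v ∈ E, t v := by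
    intro E
    unfold nr
    rw [← Real.finsetProd_rpow _ _ (fun v _ => Nat.cast_nonneg _), ← Finset.prod_const,
      ← Finset.prod_mul_distrib, ← Finset.prod_mul_distrib]
    refine Finset.prod_congr rfl fun v _ => ?_
    have hv : (0 : ℝ) < (nm v : ℝ) := by
      have := one_lt_nm v
      exact_mod_cast (by omega : 0 < nm v)
    rw [mul_assoc, ← Real.rpow_add hv]
    rfl
  rw [Finset.sum_congr rfl fun E _ => hterm E]
  have hsub : F ⊆ (F.biUnion id).powerset := fun E hE =>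
    Finset.mem_powerset.2 (Finset.subset_biUnion_of_mem id hE)
  calc ∑ E ∈ F, ∏ v ∈ E, t v ≤ ∑ E ∈ (F.biUnion id).powerset, ∏ v ∈ E, t v :=
        Finset.sum_le_sum_of_subset_of_nonneg hsub fun E _ _ =>
          Finset.prod_nonneg fun v _ => ht0 v
    _ = ∏ v ∈ F.biUnion id, (1 + t v) := (Finset.prod_one_add _).symm
    _ ≤ ∏ v ∈ F.biUnion id, Real.exp (t v) := by
        refine Finset.prod_le_prod (fun v _ => by linarith [ht0 v]) fun v _ => ?_
        rw [add_comm]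
        exact Real.add_one_le_exp _
    _ = Real.exp (∑ v ∈ F.biUnion id, t v) := (Real.exp_sum _ _).symm
    _ ≤ Real.exp (∑' v, t v) :=
        Real.exp_le_exp.2 (hts.sum_le_tsum _ fun v _ => ht0 v)

theorem uy_le (B : ℝ) (hB : 1 ≤ B) (a : ℕ) (E : Finset (Pl K)) :
    0 ≤ UY B a E ∧ UY B a E ≤ B ^ (1 / (a : ℝ)) := by
  have hB0 : 0 ≤ B ^ (1 / (a : ℝ)) := Real.rpow_nonneg (by linarith) _
  have hf0 : ∀ v ∈ E, 0 ≤ (nm v : ℝ) ^ (-((co a v : ℝ) / (a : ℝ))) := fun v _ =>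
    Real.rpow_nonneg (Nat.cast_nonneg _) _
  unfold UY
  refine ⟨mul_nonneg hB0 (Finset.prod_nonneg hf0), mul_le_of_le_one_right hB0 ?_⟩
  refine Finset.prod_le_one hf0 fun v _ => ?_
  refine Real.rpow_le_one_of_one_le_of_nonpos ?_ ?_
  · exact_mod_cast (one_lt_nm v).le
  · have : 0 ≤ (co a v : ℝ) / (a : ℝ) := by positivity
    linarith

end H63.BU
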