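import Pool.Agent.H63.BU.UFib
import Pool.Agent.H63.BU.UKum
import Pool.Agent.H63.BU.USum
import Pool.Agent.H38.BB.CDef

/-!
# [H63 BU UCNT] the number of homomorphisms with given E and b, 90-150 lines. File Pool/Agent/H63/BU/UCnt.lean

* `ucnt_nr`: let `φ` be of finite type, `∏_{v ∈ T} (nm v)^{ix (φ (inertia))} ≤ B` for all finite sets `T` of primes outside `S0`, `f i` the primes of type `i`, `E` the other ramified primes. Then `∏_i nr (f i) ≤ UY B a E`, `Dj f`, `f i` is disjoint from `E`, and `1 ≤ UY B a E`, `nr E ≤ B`, `f i ∈ GF D (UY B a E)`.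
  Proof: the `f i` and `E` are pairwise disjoint (`ulead_uni`). Take `T = E ∪ ⋃ f i`: by `ulead` (`co a v ≤ ix`) and `ulead_ty` (`a ≤ ix`, `h1`) `∏_{v ∈ E} (nm v)^{co a v} * (∏_i nr (f i))^a ≤ B`. Take `a`-th roots (`Real.rpow`): `∏ nr (f i) ≤ B^{1/a} ∏_{v ∈ E} (nm v)^{-co/a}`. `nr ≥ 1` (`one_le_nr`) gives `1 ≤ UY`. `nr E ≤ ∏_{v ∈ E} (nm v)^{co a v} ≤ B` as
  `co a v ≥ a ≥ 1`. `GF D y` = the sets of good primes of norm at most `y` (`mem_AF`, `Ty` contains `D.Gd v`).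
* `ucnt`: for fixed `(E, b)` and a finite set `Rs` of surjective `φ` of finite type such that `E` = the other ramified primes of `φ` and, for the family `f` of `φ`, the last four conclusions of `ukum` hold with `b`: `#Rs ≤ C * (#G)^{#E} * SW D Dg.cr b E 1 (UY B a E)`.
  Proof: sum over the possible families `f ∈ piFinset (GF D (UY B a E))` (`Finset.card_eq_sum_card_fiberwise` for `φ ↦ f_φ`, where `f_φ i` is the finite set of the primes of type `i`: `uinr_fin`, `ulead_ty`); each fibre has at most `C (#G)^{#E} ∏_i (#class_i)^{#(f i)}` elements (`ufib`) and if it is not empty the term of `f` in `SW` is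
  `1 * wtR … = ∏_i (#class_i)^{#(f i)}` (conditions: `ucnt_nr`, `SpR`); all terms of `SW` are `≥ 0` (`wtR ≥ 0`). Compare `upc` in Pool/Agent/H63/MA/GUpC.lean.
-/

set_option autoImplicit false

open scoped NumberField
open IsDedekindDomain
open scoped Classical

noncomputable section

namespace H63.BU

open H63.MA H38.BB H38.BG

variable {K : Type} [Field K] [NumberField K] {Ω : Type} [Field Ω] [Algebra K Ω] [IsAlgClosure K Ω]
  {p : ℕ} {ζ : K} {m u w N : ℕ}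

omit [IsAlgClosure K Ω] in
theorem ucnt_wt0 (c : CR p m N) (f : Fin N → Finset (Pl K)) (F : Pl K → Fin m → ZMod p) :
    0 ≤ wtR c f F := by
  unfold wtR
  refine Finset.prod_nonneg fun i _ => Finset.prod_nonneg fun v _ => ?_
  split_ifs
  · exact Nat.cast_nonneg _
  · exact le_rfl

theorem ucnt_UY {K : Type} [Field K] [NumberField K] (B : ℝ) (hB : 0 ≤ B) (a : ℕ) (ha : 0 < a)
    (E : Finset (Pl K)) :
    UY B a E = (B / ∏ v ∈ E, (nm v : ℝ) ^ co a v) ^ (1 / (a : ℝ)) := by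
  have haR : (0 : ℝ) < (a : ℝ) := by exact_mod_cast ha
  have h0 : ∀ v : Pl K, (0 : ℝ) < (nm v : ℝ) := fun v => by
    exact_mod_cast (zero_lt_one.trans (one_lt_nm v))
  have h1 : ∏ v ∈ E, (nm v : ℝ) ^ (-((co a v : ℝ) / (a : ℝ))) =
      (∏ v ∈ E, (nm v : ℝ) ^ co a v) ^ (-(1 / (a : ℝ))) := by
    rw [← Real.finsetProd_rpow E _ (fun v _ => by have := h0 v; positivity)]
    refine Finset.prod_congr rfl fun v _ => ?_
    rw [← Real.rpow_natCast, ← Real.rpow_mul (h0 v).le]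
    congr 1
    field_simp
  have hQ : 0 < ∏ v ∈ E, (nm v : ℝ) ^ co a v :=
    Finset.prod_pos fun v _ => by have := h0 v; positivity
  unfold UY
  rw [h1, Real.div_rpow hB hQ.le, Real.rpow_neg hQ.le]
  rfl

theorem ucnt_nr (hp : p.Prime) (hζ : IsPrimitiveRoot ζ p) (D : RD0 K p ζ) (L : LDs D Ω)
    {G : Type} [Group G] [Finite G] (Dg : GT p m u w N G)
    (hS : ∀ v : Pl K, ((Nat.card G : ℕ) : 𝓞 K) ∈ v.asIdeal → v ∈ D.S0) (a : ℕ) (ha : 0 < a)
    (ix : Subgroup G → ℕ) (h1 : ∀ H, H ≠ ⊥ → a ≤ ix H)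
    (h2 : ∀ g : G, g ≠ 1 → ix (Subgroup.zpowers g) ≤ a → ∃ i, IsConj g (Dg.g i))
    (φ : Gal(Ω/K) →* G) (hφ : H38.ML.FT φ) (B : ℝ)
    (hB : ∀ T : Finset (Pl K), (∀ v ∈ T, v ∉ D.S0) →
      ∏ v ∈ T, (nm v : ℝ) ^ ix ((inr L v).map φ) ≤ B)
    (f : Fin N → Finset (Pl K)) (E : Finset (Pl K)) (hf : ∀ i v, v ∈ f i ↔ Ty Dg L φ i v)
    (hE : ∀ v, v ∈ E ↔ Rm L φ v ∧ ∀ i, ¬ Ty Dg L φ i v) :
    ∏ i, nr (f i) ≤ UY B a E ∧ Dj f ∧ (∀ i, Disjoint (f i) E) ∧ 1 ≤ UY B a E ∧ nr E ≤ B ∧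
      ∀ i, f i ∈ GF D (UY B a E) := by
  have h0 : ∀ v : Pl K, (1 : ℝ) ≤ (nm v : ℝ) := fun v => by
    exact_mod_cast (one_lt_nm v).le
  have haR : (0 : ℝ) < (a : ℝ) := by exact_mod_cast ha
  have hco : ∀ v : Pl K, a ≤ co a v := by
    intro v
    unfold co
    split_ifs
    · exact Nat.le_succ a
    · exact le_rfl
  have hdj : Dj f := by
    intro i j hij
    rw [Finset.disjoint_left]
    intro v hv hv'
    exact hij (ulead_uni L Dg φ i j v ((hf i v).1 hv) ((hf j v).1 hv'))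
  have hdE : ∀ i, Disjoint (f i) E := by
    intro i
    rw [Finset.disjoint_left]
    intro v hv hv'
    exact ((hE v).1 hv').2 i ((hf i v).1 hv)
  have hEi : Disjoint E (Finset.univ.biUnion f) := by
    rw [Finset.disjoint_biUnion_right]
    exact fun i _ => (hdE i).symm
  have hT : ∀ v ∈ E ∪ Finset.univ.biUnion f, v ∉ D.S0 := by
    intro v hv
    rcases Finset.mem_union.1 hv with h | h
    · exact ((hE v).1 h).1.1
    · obtain ⟨i, -, hi⟩ := Finset.mem_biUnion.1 h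
      exact ((hf i v).1 hi).1.1
  have hprod := hB _ hT
  rw [Finset.prod_union hEi, Finset.prod_biUnion (fun i _ j _ hij => hdj i j hij)] at hprod
  have hQ1 : ∏ v ∈ E, (nm v : ℝ) ^ co a v ≤ ∏ v ∈ E, (nm v : ℝ) ^ ix ((inr L v).map φ) := by
    refine Finset.prod_le_prod (fun v _ => by have := h0 v; positivity) fun v hv => ?_
    have hv' := (hE v).1 hv
    rcases ulead hp hζ L Dg hS a ix h1 h2 φ hφ v hv'.1 with ⟨i, hi⟩ | h
    · exact absurd hi (hv'.2 i)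
    · exact pow_le_pow_right₀ (h0 v) h
  have hP1 : (∏ i, nr (f i)) ^ a ≤ ∏ i, ∏ v ∈ f i, (nm v : ℝ) ^ ix ((inr L v).map φ) := by
    rw [← Finset.prod_pow]
    refine Finset.prod_le_prod (fun i _ => pow_nonneg (by linarith [one_le_nr (f i)]) _)
      fun i _ => ?_
    unfold nr
    rw [← Finset.prod_pow]
    refine Finset.prod_le_prod (fun v _ => by have := h0 v; positivity) fun v hv => ?_
    exact pow_le_pow_right₀ (h0 v) (h1 _ (ulead_ty L Dg φ i v ((hf i v).1 hv)).2)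
  obtain ⟨Q, hQ⟩ : ∃ Q : ℝ, Q = ∏ v ∈ E, (nm v : ℝ) ^ co a v := ⟨_, rfl⟩
  obtain ⟨P, hP⟩ : ∃ P : ℝ, P = ∏ i, nr (f i) := ⟨_, rfl⟩
  have hPone : 1 ≤ P := by
    rw [hP]
    exact atupa_prod_one f Finset.univ
  have hnrQ : nr E ≤ Q := by
    rw [hQ]
    unfold nr
    refine Finset.prod_le_prod (fun v _ => by have := h0 v; positivity) fun v _ => ?_
    calc (nm v : ℝ) = (nm v : ℝ) ^ 1 := (pow_one _).symm
      _ ≤ _ := pow_le_pow_right₀ (h0 v) (by have := hco v; omega)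
  have hQone : 1 ≤ Q := (one_le_nr E).trans hnrQ
  have hQP : Q * P ^ a ≤ B := by
    refine le_trans ?_ hprod
    rw [hQ, hP]
    refine mul_le_mul hQ1 hP1 (by rw [← hP]; positivity) ?_
    exact Finset.prod_nonneg fun v _ => by have := h0 v; positivity
  have hPa : 1 ≤ P ^ a := one_le_pow₀ hPone
  have hQB : Q ≤ B := by nlinarith
  have hB0 : 0 < B := by linarith
  have hUY : UY B a E = (B / Q) ^ (1 / (a : ℝ)) := by
    rw [hQ]
    exact ucnt_UY B hB0.le a ha E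
  have hPU : P ≤ UY B a E := by
    rw [hUY]
    have h3 : P ^ a ≤ B / Q := by
      rw [le_div_iff₀ (by linarith)]
      linarith
    have h4 : P = (P ^ a) ^ (1 / (a : ℝ)) := by
      rw [one_div, Real.pow_rpow_inv_natCast (by linarith) ha.ne']
    rw [h4]
    exact Real.rpow_le_rpow (by positivity) h3 (by positivity)
  refine ⟨?_, hdj, hdE, hPone.trans hPU, hnrQ.trans hQB, fun i => ?_⟩
  · rw [← hP]
    exact hPU
  · rw [atupa_mem_GF]
    refine ⟨?_, fun v hv => ((hf i v).1 hv).1⟩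
    refine le_trans (atupa_le_prod f i) ?_
    rw [← hP]
    exact hPU

theorem ucnt (hp : p.Prime) (hζ : IsPrimitiveRoot ζ p) (D : RD0 K p ζ) (L : LDs D Ω)
    {G : Type} [Group G] [Finite G] (hnil : Group.IsNilpotent G) (Dg : GT p m u w N G) (z : K)
    (hz : IsPrimitiveRoot z (Nat.card G))
    (hS : ∀ v : Pl K, ((Nat.card G : ℕ) : 𝓞 K) ∈ v.asIdeal → v ∈ D.S0) (a : ℕ) (ha : 0 < a)
    (ix : Subgroup G → ℕ) (h1 : ∀ H, H ≠ ⊥ → a ≤ ix H)
    (h2 : ∀ g : G, g ≠ 1 → ix (Subgroup.zpowers g) ≤ a → ∃ i, IsConj g (Dg.g i)) :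
    ∃ C : ℕ, ∀ (B : ℝ) (E : Finset (Pl K)) (b : Fin m → Kˣ) (Rs : Finset (Gal(Ω/K) →* G)),
      (∀ φ ∈ Rs, H38.ML.FT φ ∧ (∀ T : Finset (Pl K), (∀ v ∈ T, v ∉ D.S0) →
          ∏ v ∈ T, (nm v : ℝ) ^ ix ((inr L v).map φ) ≤ B) ∧
        (∀ v, v ∈ E ↔ Rm L φ v ∧ ∀ i, ¬ Ty Dg L φ i v) ∧
        ∀ f : Fin N → Finset (Pl K), (∀ i v, v ∈ f i ↔ Ty Dg L φ i v) →
          SpR Dg.cr b f ∧ wtR Dg.cr f (fun v k => D.LL v (akR D Dg.cr b f k)) =
            ∏ i, (Nat.card {h : G // IsConj h (Dg.g i)} : ℝ) ^ (f i).card) →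
      (Rs.card : ℝ) ≤ C * (Nat.card G : ℝ) ^ E.card * SW D Dg.cr b E (fun _ => 1) (UY B a E) := by
  obtain ⟨C, hC⟩ := ufib hp hζ D L hnil Dg z hz hS
  refine ⟨C, fun B E b Rs hRs => ?_⟩
  -- the families
  obtain ⟨fam, hfam⟩ : ∃ fam : (Gal(Ω/K) →* G) → Fin N → Finset (Pl K),
      ∀ φ ∈ Rs, ∀ i v, v ∈ fam φ i ↔ Ty Dg L φ i v := by
    have hfin : ∀ φ ∈ Rs, ∀ i, {v : Pl K | Ty Dg L φ i v}.Finite := by
      intro φ hφ i
      refine (uinr_fin L φ (hRs φ hφ).1).subset ?_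
      intro v hv
      exact (ulead_ty L Dg φ i v hv).1
    refine ⟨fun φ i => if h : {v : Pl K | Ty Dg L φ i v}.Finite then h.toFinset else ∅,
      fun φ hφ i v => ?_⟩
    dsimp only
    rw [dif_pos (hfin φ hφ i), Set.Finite.mem_toFinset]
    rfl
  obtain ⟨Z, hZ⟩ : ∃ Z : (Fin N → Finset (Pl K)) → ℝ, Z = fun f =>
      if Dj f ∧ (∀ i, Disjoint (f i) E) ∧ ∏ i, nr (f i) ≤ UY B a E ∧ SpR Dg.cr b f then
      (fun _ => (1 : ℝ)) (fun i => qf D (f i)) *
        wtR Dg.cr f (fun v k => D.LL v (akR D Dg.cr b f k)) else 0 := ⟨_, rfl⟩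
  have hZ0 : ∀ f, 0 ≤ Z f := by
    intro f
    rw [hZ]
    dsimp only
    split_ifs
    · rw [one_mul]
      exact ucnt_wt0 _ _ _
    · exact le_rfl
  have hSW : SW D Dg.cr b E (fun _ => 1) (UY B a E) =
      ∑ f ∈ Fintype.piFinset (fun _ : Fin N => GF D (UY B a E)), Z f := by
    rw [hZ]
    rfl
  have hmap : ∀ φ ∈ Rs, fam φ ∈ Fintype.piFinset (fun _ : Fin N => GF D (UY B a E)) := by
    intro φ hφ
    obtain ⟨r1, r2, r3, r4⟩ := hRs φ hφ
    obtain ⟨-, -, -, -, -, h6⟩ := ucnt_nr hp hζ D L Dg hS a ha ix h1 h2 φ r1 B r2 (fam φ) E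
      (hfam φ hφ) r3
    exact Fintype.mem_piFinset.2 h6
  have hfib : ∀ f ∈ Fintype.piFinset (fun _ : Fin N => GF D (UY B a E)),
      ((Rs.filter fun φ => fam φ = f).card : ℝ) ≤ C * (Nat.card G : ℝ) ^ E.card * Z f := by
    intro f _
    by_cases hemp : (Rs.filter fun φ => fam φ = f) = ∅
    · rw [hemp, Finset.card_empty, Nat.cast_zero]
      have := hZ0 f
      positivity
    · obtain ⟨φ, hφ⟩ := Finset.nonempty_iff_ne_empty.2 hemp
      rw [Finset.mem_filter] at hφ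
      obtain ⟨hφ, hff⟩ := hφ
      obtain ⟨r1, r2, r3, r4⟩ := hRs φ hφ
      have hff' : ∀ i v, v ∈ f i ↔ Ty Dg L φ i v := by
        rw [← hff]
        exact hfam φ hφ
      obtain ⟨g1, g2, g3, -, -, -⟩ := ucnt_nr hp hζ D L Dg hS a ha ix h1 h2 φ r1 B r2 f E
        hff' r3
      obtain ⟨s1, s2⟩ := r4 f hff'
      have hZf : Z f = ∏ i, (Nat.card {h : G // IsConj h (Dg.g i)} : ℝ) ^ (f i).card := by
        rw [hZ]
        dsimp only
        rw [if_pos ⟨g2, g3, g1, s1⟩, one_mul, s2]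
      rw [hZf]
      have h5 := hC E f (Rs.filter fun φ => fam φ = f)
        (fun ψ hψ => (hRs ψ (Finset.mem_filter.1 hψ).1).1)
        (fun ψ hψ => by
          have h6 := Finset.mem_filter.1 hψ
          rw [← h6.2]
          exact hfam ψ h6.1)
        (fun ψ hψ => (hRs ψ (Finset.mem_filter.1 hψ).1).2.2.1)
      exact_mod_cast h5
  rw [Finset.card_eq_sum_card_fiberwise (fun φ hφ => Finset.mem_coe.2 (hmap φ (Finset.mem_coe.1 hφ))),
    Nat.cast_sum, hSW, Finset.mul_sum]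
  exact Finset.sum_le_sum hfib

end H63.BU
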