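import Pool.Agent.H38.BG.TFrob
import Pool.Agent.H63.MA.GUpA

/-!
# BU-UDEF: definitions for the upper bound (all nilpotent groups whose least index elements are in the second centre)

* `co a v`: the exponent of `nm v` in the discriminant bound for a ramified prime which is not of type `i`.
* `UY B a E = B^{1/a} ∏_{v ∈ E} (nm v)^{-co/a}`: the bound for the norm of the families when the other ramified primes are `E`.
* `XE D U E`: the elements `u ∏_{v ∈ E} pi_v^{y_v}`, `u ∈ U`, `0 ≤ y_v < p`; `Bb D U E m`: the families of `m` such elements.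
-/

set_option autoImplicit false

open scoped NumberField
open IsDedekindDomain
open scoped Classical

noncomputable section

namespace H63.BU

open H63.MA H38.BB H38.BG

variable {K : Type} [Field K] [NumberField K] {p : ℕ} {ζ : K}

/-- the exponent of the norm at a ramified prime which is not of type `i` -/
def co (a : ℕ) (v : Pl K) : ℕ := if (nm v).Prime then a + 1 else a

/-- the bound for the norm of the families -/
def UY (B : ℝ) (a : ℕ) (E : Finset (Pl K)) : ℝ :=
  B ^ (1 / (a : ℝ)) * ∏ v ∈ E, (nm v : ℝ) ^ (-((co a v : ℝ) / (a : ℝ)))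

/-- Kummer parameters supported on `E` -/
def XE [NeZero p] (D : RD0 K p ζ) (U : Finset Kˣ) (E : Finset (Pl K)) : Finset Kˣ :=
  (U ×ˢ (Finset.univ : Finset (↥E → ZMod p))).image
    fun e => e.1 * ∏ v : ↥E, D.pi v.1 ^ (e.2 v).val

/-- families of Kummer parameters supported on `E` -/
def Bb [NeZero p] (D : RD0 K p ζ) (U : Finset Kˣ) (E : Finset (Pl K)) (m : ℕ) :
    Finset (Fin m → Kˣ) := Fintype.piFinset fun _ : Fin m => XE D U E

end H63.BU
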