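import Pool.Agent.H63.BU.UInr

/-!
# [H63 BU ULEAD] ramified primes are of type i or have a larger exponent, 60-110 lines. File Pool/Agent/H63/BU/ULead.lean

`a ≤ ix H` for all subgroups `H ≠ ⊥`, and `g ≠ 1` with `ix (zpowers g) ≤ a` is conjugate to some `g i`. For a ramified prime `v ∉ S0` of `φ` (`Rm L φ v`): `v` is of type `i` for some `i`, or `co a v ≤ ix (φ (inertia))` (`co` in UDef: `a + 1` if `nm v` is prime, `a` otherwise).
Proof. `J = (inr L v).map φ = zpowers g`, `g = φ τ`, `τ ∈ inr L v` (`uinr_gen`), `J ≠ ⊥` (`Rm`), so `g ≠ 1`. If `nm v` is not prime: `co a v = a ≤ ix J`. If `nm v` is prime and `ix J ≤ a`: `g` is conjugate to `g i` for some `i`, `g^p = 1` (`Dg.pow`), so `(φ σ)^p = 1` for all `σ ∈ inr L v` (`φ σ ∈ zpowers g`).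
By `tm_z` (Pool/Agent/H38/BG/TTam.lean) `φ σ ∈ zpowers (φ (L.t v))` for `σ ∈ inr L v`; so `J = zpowers (φ (L.t v))` (`uinr_t`) and `φ (L.t v) ≠ 1`, `ix (zpowers (φ (L.t v))) ≤ a`, `φ (L.t v)` is conjugate to some `g i'`. `D.Gd v` holds (`v ∉ S0`, `nm v` prime), so `Ty Dg L φ i' v`.
* `ulead_ty`: a prime of type `i` has `(inr L v).map φ ≠ ⊥` (`φ (L.t v)` is conjugate to `g i ≠ 1`), so it is ramified, and `a ≤ ix`.
* `ulead_uni`: a prime has at most one type (`Dg.uni`).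
-/

set_option autoImplicit false

open scoped NumberField
open IsDedekindDomain
open scoped Classical

noncomputable section

namespace H63.BU

open H63.MA H38.BB H38.BG

variable {K : Type} [Field K] [NumberField K] {Ω : Type} [Field Ω] [Algebra K Ω] [IsAlgClosure K Ω]
  {p : ℕ} {ζ : K} {m u w N : ℕ}

theorem ulead (hp : p.Prime) (hζ : IsPrimitiveRoot ζ p) {D : RD0 K p ζ} (L : LDs D Ω)
    {G : Type} [Group G] [Finite G] (Dg : GT p m u w N G)
    (hS : ∀ v : Pl K, ((Nat.card G : ℕ) : 𝓞 K) ∈ v.asIdeal → v ∈ D.S0) (a : ℕ)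
    (ix : Subgroup G → ℕ) (h1 : ∀ H, H ≠ ⊥ → a ≤ ix H)
    (h2 : ∀ g : G, g ≠ 1 → ix (Subgroup.zpowers g) ≤ a → ∃ i, IsConj g (Dg.g i))
    (φ : Gal(Ω/K) →* G) (hφ : H38.ML.FT φ) (v : Pl K) (hv : Rm L φ v) :
    (∃ i, Ty Dg L φ i v) ∨ co a v ≤ ix ((inr L v).map φ) := by
  obtain ⟨hvS, τ₀, hτ₀, hne⟩ := hv
  have hJ : (inr L v).map φ ≠ ⊥ := by
    intro h
    have h3 : φ τ₀ ∈ (inr L v).map φ := Subgroup.mem_map_of_mem φ hτ₀
    rw [h] at h3
    exact hne (Subgroup.mem_bot.1 h3)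
  by_cases hpr : (nm v).Prime
  · by_cases hix : ix ((inr L v).map φ) ≤ a
    · left
      obtain ⟨τ, hτ, hg⟩ := uinr_gen L (Nat.card G) hS rfl φ hφ v
      have hτ1 : φ τ ≠ 1 := by
        intro h
        apply hJ
        rw [hg, h]
        exact Subgroup.zpowers_one_eq_bot
      obtain ⟨i, hi⟩ := h2 (φ τ) hτ1 (by rw [← hg]; exact hix)
      have hp1 : φ τ ^ p = 1 := by
        have h4 : IsConj ((φ τ) ^ p) ((Dg.g i) ^ p) := hi.pow p
        have h5 : Dg.g i ^ p = 1 := Dg.pow i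
        rw [h5] at h4
        exact isConj_one_left.1 h4
      have hpow : ∀ σ ∈ inr L v, φ σ ^ p = 1 := by
        intro σ hσ
        have h3 : φ σ ∈ (inr L v).map φ := Subgroup.mem_map_of_mem φ hσ
        rw [hg] at h3
        obtain ⟨k, hk⟩ := Subgroup.mem_zpowers_iff.1 h3
        rw [← hk, ← zpow_natCast, ← zpow_mul, mul_comm, zpow_mul, zpow_natCast, hp1, one_zpow]
      have hJt : (inr L v).map φ = Subgroup.zpowers (φ (L.t v)) := by
        apply le_antisymm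
        · rintro x ⟨σ, hσ, rfl⟩
          rw [tm_z hp hζ L φ hφ v hvS hpow σ hσ]
          exact Subgroup.pow_mem _ (Subgroup.mem_zpowers _) _
        · rw [Subgroup.zpowers_le]
          exact Subgroup.mem_map_of_mem φ (uinr_t L v)
      have ht1 : φ (L.t v) ≠ 1 := by
        intro h
        apply hJ
        rw [hJt, h]
        exact Subgroup.zpowers_one_eq_bot
      obtain ⟨i', hi'⟩ := h2 (φ (L.t v)) ht1 (by rw [← hJt]; exact hix)
      exact ⟨i', ⟨hvS, hpr⟩, hi', hpow⟩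
    · right
      unfold co
      rw [if_pos hpr]
      omega
  · right
    unfold co
    rw [if_neg hpr]
    exact h1 _ hJ

omit [IsAlgClosure K Ω] in
private theorem ulead_ne {D : RD0 K p ζ} (L : LDs D Ω) {G : Type} [Group G] (Dg : GT p m u w N G)
    (φ : Gal(Ω/K) →* G) (i : Fin N) (v : Pl K) (hv : Ty Dg L φ i v) : φ (L.t v) ≠ 1 := by
  intro h
  have h1 := hv.2.1
  rw [h] at h1
  exact Dg.ne i (isConj_one_right.1 h1)

omit [IsAlgClosure K Ω] in
theorem ulead_ty {D : RD0 K p ζ} (L : LDs D Ω) {G : Type} [Group G] (Dg : GT p m u w N G)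
    (φ : Gal(Ω/K) →* G) (i : Fin N) (v : Pl K) (hv : Ty Dg L φ i v) :
    Rm L φ v ∧ (inr L v).map φ ≠ ⊥ := by
  have hne := ulead_ne L Dg φ i v hv
  refine ⟨⟨hv.1.1, L.t v, uinr_t L v, hne⟩, fun h => ?_⟩
  have h3 : φ (L.t v) ∈ (inr L v).map φ := Subgroup.mem_map_of_mem φ (uinr_t L v)
  rw [h] at h3
  exact hne (Subgroup.mem_bot.1 h3)

omit [IsAlgClosure K Ω] in
theorem ulead_uni {D : RD0 K p ζ} (L : LDs D Ω) {G : Type} [Group G] (Dg : GT p m u w N G)
    (φ : Gal(Ω/K) →* G) (i j : Fin N) (v : Pl K) (hi : Ty Dg L φ i v) (hj : Ty Dg L φ j v) :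
    i = j :=
  Dg.uni i j (hi.2.1.symm.trans hj.2.1)

end H63.BU
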