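import Pool.Agent.H63.BU.UInr
import Pool.Agent.H63.BU.UGsr
import Pool.Agent.H63.BU.ULead

/-!
# [H63 BU UFIB] the number of homomorphisms with given ramified primes, 90-150 lines. File Pool/Agent/H63/BU/UFib.lean

`ufib`: `G` nilpotent. There is `C` such that for all finite sets `E`, `f i` of primes and every finite set `Rs` of homomorphisms `φ : Γ → G` of finite type with `f i` = the primes of type `i` and `E` = the other ramified primes: `#Rs ≤ C * (#G)^{#E} * ∏_i (#class_i)^{#(f i)}`.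
Proof. `C` from `ugsr` (for `H = G`, `n = #G`). For `v ∈ E` choose `τ v ∈ inr L v` as in `uinr_cyc` (for `Rs`). Map `φ ∈ Rs` to `ρ φ = ((φ (τ v))_{v ∈ E}, (φ (L.t v))_{v ∈ f i})`, in a set with `(#G)^{#E} * ∏_i (#class_i)^{#(f i)}` elements (as in `upa`, Pool/Agent/H63/MA/GUpA.lean, `Nat.card_pi`, `Nat.card_fun`).
If `ρ φ = ρ φ'` then `φ` and `φ'` agree on all `inr L v`, `v ∉ S0`: for `v ∈ E`: `φ σ = φ (τ v) ^ k`, `φ' σ = φ' (τ v) ^ k`; for `v ∈ f i`: `φ σ = φ (t v) ^ (kk (pi v) σ).val` by `tm_z` (type `i` for both `φ`, `φ'`: exponent `p`), the same for `φ'`; for the other `v` both are unramified (not `Rm`): `φ σ = 1 = φ' σ`.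
So every fibre of `ρ` on `Rs` has at most `C` elements (`ugsr`); `Finset.card_le_mul_card_image` or `card_eq_sum_card_fiberwise`.
-/

set_option autoImplicit false

open scoped NumberField
open IsDedekindDomain
open scoped Classical

noncomputable section

namespace H63.BU

open H63.MA H38.BB H38.BG

variable {K : Type} [Field K] [NumberField K] {Ω : Type} [Field Ω] [Algebra K Ω] [IsAlgClosure K Ω]
  {p : ℕ} {ζ : K} {m u w N : ℕ}

theorem ufib (hp : p.Prime) (hζ : IsPrimitiveRoot ζ p) (D : RD0 K p ζ) (L : LDs D Ω)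
    {G : Type} [Group G] [Finite G] (hnil : Group.IsNilpotent G) (Dg : GT p m u w N G) (z : K)
    (hz : IsPrimitiveRoot z (Nat.card G))
    (hS : ∀ v : Pl K, ((Nat.card G : ℕ) : 𝓞 K) ∈ v.asIdeal → v ∈ D.S0) :
    ∃ C : ℕ, ∀ (E : Finset (Pl K)) (f : Fin N → Finset (Pl K)) (Rs : Finset (Gal(Ω/K) →* G)),
      (∀ φ ∈ Rs, H38.ML.FT φ) → (∀ φ ∈ Rs, ∀ i v, v ∈ f i ↔ Ty Dg L φ i v) →
      (∀ φ ∈ Rs, ∀ v, v ∈ E ↔ Rm L φ v ∧ ∀ i, ¬ Ty Dg L φ i v) →
      Rs.card ≤ C * Nat.card G ^ E.card *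
        ∏ i, Nat.card {h : G // IsConj h (Dg.g i)} ^ (f i).card := by
  obtain ⟨C, hC⟩ := ugsr D L (Nat.card G) Nat.card_pos z hz hS G hnil (dvd_refl _)
  refine ⟨C, ?_⟩
  intro E f Rs hft hty hE
  have hfin : Fintype G := Fintype.ofFinite G
  have h1 := fun v => uinr_cyc L (Nat.card G) hS (H := G) rfl Rs hft v
  choose τ hτ hτ2 using h1
  let ρ : (Gal(Ω/K) →* G) → (↥E → G) × ((i : Fin N) → (↥(f i) → G)) := fun φ =>
    (fun v => φ (τ v.1), fun i v => φ (L.t v.1))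
  let T : Finset ((↥E → G) × ((i : Fin N) → (↥(f i) → G))) :=
    Finset.univ ×ˢ Fintype.piFinset (fun i => Fintype.piFinset
      (fun _ : ↥(f i) => Finset.univ.filter fun h : G => IsConj h (Dg.g i)))
  have hmaps : ∀ φ ∈ Rs, ρ φ ∈ T := by
    intro φ hφ
    show ρ φ ∈ Finset.univ ×ˢ _
    rw [Finset.mem_product]
    refine ⟨Finset.mem_univ _, ?_⟩
    rw [Fintype.mem_piFinset]
    intro i
    rw [Fintype.mem_piFinset]
    intro v
    rw [Finset.mem_filter]
    exact ⟨Finset.mem_univ _, ((hty φ hφ i v.1).1 v.2).2.1⟩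
  have hfib : ∀ b ∈ T, (Rs.filter fun φ => ρ φ = b).card ≤ C := by
    intro b _
    refine hC _ (fun φ hφ => hft φ (Finset.mem_filter.1 hφ).1) ?_
    intro φ hφ φ' hφ' v hv σ hσ
    rw [Finset.mem_filter] at hφ hφ'
    have hρ : ρ φ = ρ φ' := hφ.2.trans hφ'.2.symm
    by_cases hvE : v ∈ E
    · obtain ⟨k, hk⟩ := hτ2 v σ hσ
      have h2 : φ (τ v) = φ' (τ v) := congrFun (congrArg Prod.fst hρ) ⟨v, hvE⟩
      rw [hk φ hφ.1, hk φ' hφ'.1, h2]
    · by_cases hvf : ∃ i, v ∈ f i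
      · obtain ⟨i, hi⟩ := hvf
        have h2 : φ (L.t v) = φ' (L.t v) := congrFun (congrFun (congrArg Prod.snd hρ) i) ⟨v, hi⟩
        rw [tm_z hp hζ L φ (hft φ hφ.1) v hv ((hty φ hφ.1 i v).1 hi).2.2 σ hσ,
          tm_z hp hζ L φ' (hft φ' hφ'.1) v hv ((hty φ' hφ'.1 i v).1 hi).2.2 σ hσ, h2]
      · have hone : ∀ χ ∈ Rs, χ σ = 1 := by
          intro χ hχ
          by_contra h3
          refine hvE ((hE χ hχ v).2 ⟨⟨hv, σ, hσ, h3⟩, fun i hi => hvf ⟨i, (hty χ hχ i v).2 hi⟩⟩)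
        rw [hone φ hφ.1, hone φ' hφ'.1]
  have h2 := Finset.card_le_mul_card_image_of_maps_to hmaps C hfib
  have h3 : T.card = Nat.card G ^ E.card *
      ∏ i, Nat.card {h : G // IsConj h (Dg.g i)} ^ (f i).card := by
    show (Finset.univ ×ˢ _ : Finset _).card = _
    rw [Finset.card_product, Fintype.card_piFinset, Finset.card_univ, Fintype.card_fun,
      Fintype.card_coe, Nat.card_eq_fintype_card]
    congr 1
    refine Finset.prod_congr rfl fun i _ => ?_
    rw [Fintype.card_piFinset, Finset.prod_const, Finset.card_univ, Fintype.card_coe,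
      Nat.card_eq_fintype_card, Fintype.card_subtype]
  rw [h3, ← mul_assoc] at h2
  exact h2

end H63.BU
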